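import Pool.Agent.R81.TC.Tool
import Pool.Agent.R81.TC.OneData

set_option autoImplicit false

namespace Pool.Agent.R81.TC.One

open Pool.Agent.Y439.Col

theorem chk000 : chkAt (exK 18 18) 19981676 val (mqA mt 268435456 5 1 1 3) 600000
    (50 * 600000 + 75 * 268435456 + 30 * 268435456) 0 0 0 = true := by
  decide +kernel

theorem chk001 : chkAt (exK 18 18) 19981676 val (mqA mt 268435456 5 1 1 3) 600000
    (50 * 600000 + 75 * 268435456 + 30 * 268435456) 0 0 1 = true := by
  decide +kernel

end Pool.Agent.R81.TC.One
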