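import Pool.Agent.R81.TC.OneA
import Pool.Agent.R81.TC.OneB0
import Pool.Agent.R81.TC.OneB1
import Pool.Agent.R81.TC.OneB2

set_option autoImplicit false

namespace Pool.Agent.R81.TC.One

open Pool.Agent.Y439.Col

theorem chk3 (C0 C1 C2 : ℕ) (h01 : C0 ≤ C1) (h12 : C1 ≤ C2) (h2 : C2 < 3) :
    chkAt (exK 18 18) 19981676 val (mqA mt 268435456 5 1 1 3) 600000
      (50 * 600000 + 75 * 268435456 + 30 * 268435456) C0 C1 C2 = true := by
  have e0 : C0 = 0 ∨ C0 = 1 ∨ C0 = 2 := by omega
  have e1 : C1 = 0 ∨ C1 = 1 ∨ C1 = 2 := by omega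
  have e2 : C2 = 0 ∨ C2 = 1 ∨ C2 = 2 := by omega
  rcases e0 with rfl | rfl | rfl <;> rcases e1 with rfl | rfl | rfl <;>
    rcases e2 with rfl | rfl | rfl
  · exact chk000
  · exact chk001
  · exact chk002
  · exact absurd h12 (by decide)
  · exact chk011
  · exact chk012
  · exact absurd h12 (by decide)
  · exact absurd h12 (by decide)
  · exact chk022
  · exact absurd h01 (by decide)
  · exact absurd h01 (by decide)
  · exact absurd h01 (by decide)
  · exact absurd h12 (by decide)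
  · exact chk111
  · exact chk112
  · exact absurd h12 (by decide)
  · exact absurd h12 (by decide)
  · exact chk122
  · exact absurd h01 (by decide)
  · exact absurd h01 (by decide)
  · exact absurd h01 (by decide)
  · exact absurd h01 (by decide)
  · exact absurd h01 (by decide)
  · exact absurd h01 (by decide)
  · exact absurd h12 (by decide)
  · exact absurd h12 (by decide)
  · exact chk222

theorem final {V : Type*} [Fintype V] (c : V → ℕ) (hc : ∀ x, c x < 3) (e : V → V → V → ℕ)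
    (e1 : ∀ x y z, e x y z ≤ 1)
    (s1 : ∀ x y z, e x y z = e y x z) (s2 : ∀ x y z, e x y z = e x z y)
    (hK : ∀ x y z w, e x y z = 0 ∨ e x y w = 0 ∨ e x z w = 0 ∨ e y z w = 0) :
    90 * 600000 * (Fintype.card V ^ 2 * ∑ a, ∑ b, ∑ d, e a b d) ≤
      50 * 600000 * Fintype.card V ^ 5 +
        30 * (15441752 * (Fintype.card V ^ 2 * ∑ x, ∑ y, dfc 5 1 1 3 c e x y)) +
        10 * (19981676 * (Fintype.card V ^ 2 * ∑ a, ∑ b, ∑ d, bd (exK 18 18) c e a b d)) :=
  mainA good (exK 18 18) 19981676 600000 (fun a b d _ _ _ => exK_sw1 _ _ a b d)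
    (fun a b d _ _ _ => exK_sw2 _ _ a b d) mt 268435456 15441752 5 1 1 3
    (fun i hi => Nat.le_of_ble_eq_true (allb_elim mt_ok i hi)) (by norm_num) (by norm_num)
    sym_ok (fun _ _ _ _ _ h01 h12 h23 h34 h4 =>
      chkAt_elim (chk3 _ _ _ h01 h12 (lt_of_le_of_lt (h23.trans h34) h4)) h23 h34 h4)
    c hc e e1 s1 s2 hK

end Pool.Agent.R81.TC.One
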