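import Pool.Agent.R81.TC.Tool

set_option autoImplicit false

/-!
From the inequality for the indicator function of a 3-graph to the inequality for the 3-graph.
-/

namespace Pool.Agent.R81.TC
open Finset Pool.Agent.Y439.Col

variable {n : ℕ}

/-- The edges of `H` with two vertices in class `i` and one vertex in class `j`. -/
def kindEdges (H : Finset (Finset (Fin n))) (c : Fin n → Fin 3) (i j : Fin 3) :
    Finset (Finset (Fin n)) :=
  H.filter fun e => (e.filter fun x => c x = i).card = 2 ∧ (e.filter fun x => c x = j).card = 1

/-- The number of vertices `z` of the third class with `{x, y, z}` an edge (`x` and `y` are in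
different classes of `c`). -/
def transversalDegree (H : Finset (Finset (Fin n))) (c : Fin n → Fin 3) (x y : Fin n) : ℕ :=
  (univ.filter fun z => (c z ≠ c x ∧ c z ≠ c y) ∧ {x, y, z} ∈ H).card

/-- The number of vertices of the third class. -/
def thirdClass (c : Fin n → Fin 3) (x y : Fin n) : ℕ :=
  (univ.filter fun z => c z ≠ c x ∧ c z ≠ c y).card

/-- The number of vertices `z` of the class of `x` with `{x, y, z}` an edge (`x` and `y` are in the
same class). -/
def innerDegree (H : Finset (Finset (Fin n))) (c : Fin n → Fin 3) (x y : Fin n) : ℕ :=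
  (univ.filter fun z => c z = c x ∧ {x, y, z} ∈ H).card

/-- The number of vertices of the class of `x`. -/
def ownClass (c : Fin n → Fin 3) (x : Fin n) : ℕ := (univ.filter fun z => c z = c x).card

/-- The total violation of the conditions `a thirdClass ≤ b transversalDegree` (for two vertices of
different classes) and `b' innerDegree ≤ a' ownClass` (for two vertices of one class), summed over
all ordered pairs of vertices (the differences are 0 if they are negative). -/
def violation (H : Finset (Finset (Fin n))) (c : Fin n → Fin 3) (a b a' b' : ℕ) : ℕ :=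
  ∑ x, ∑ y, if c x = c y then b' * innerDegree H c x y - a' * ownClass c x
    else a * thirdClass c x y - b * transversalDegree H c x y

theorem dfc_eq (H : Finset (Finset (Fin n))) (c : Fin n → Fin 3) (p q r s : ℕ) :
    ∑ x, ∑ y, dfc p q r s (fun v => (c v : ℕ)) (tri H) x y = violation H c q (p + q) r (r + s) := by
  unfold violation dfc
  refine sum_congr rfl fun x _ => sum_congr rfl fun y _ => ?_
  have e1 : din (fun v => (c v : ℕ)) (tri H) x y = innerDegree H c x y := by
    unfold din innerDegree tri
    rw [card_filter]
    refine sum_congr rfl fun z _ => ?_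
    simp only [Fin.val_inj]
    split_ifs <;> simp_all
  have e2 : vin (fun v => (c v : ℕ)) x = ownClass c x := by
    unfold vin ownClass
    rw [card_filter]
    refine sum_congr rfl fun z _ => ?_
    simp only [Fin.val_inj]
  have e3 : dth (fun v => (c v : ℕ)) (tri H) x y = transversalDegree H c x y := by
    unfold dth transversalDegree tri
    rw [card_filter]
    refine sum_congr rfl fun z _ => ?_
    simp only [Ne, Fin.val_inj]
    split_ifs <;> simp_all
  have e4 : vth (fun v => (c v : ℕ)) x y = thirdClass c x y := by
    unfold vth thirdClass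
    rw [card_filter]
    refine sum_congr rfl fun z _ => ?_
    simp only [Ne, Fin.val_inj]
  simp only [Fin.val_inj, e1, e2, e3, e4]

/-- Every edge is counted at most six times. -/
theorem tri_sum_le (H : Finset (Finset (Fin n))) (hH : ∀ e ∈ H, e.card = 3) :
    ∑ a, ∑ b, ∑ d, tri H a b d ≤ 6 * H.card := by
  set T : Finset (Fin n × Fin n × Fin n) :=
    univ.filter fun t => ({t.1, t.2.1, t.2.2} : Finset (Fin n)) ∈ H with hT
  have e : ∑ a, ∑ b, ∑ c, tri H a b c = T.card := by
    rw [hT, Finset.card_filter, Fintype.sum_prod_type]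
    refine sum_congr rfl fun a _ => ?_
    rw [Fintype.sum_prod_type]
    rfl
  have hfw := card_eq_sum_card_fiberwise (s := T)
    (f := fun t : Fin n × Fin n × Fin n => ({t.1, t.2.1, t.2.2} : Finset (Fin n)))
    (t := H) (fun t ht => (mem_filter.mp (mem_coe.mp ht)).2)
  rw [e, hfw, mul_comm, ← smul_eq_mul, ← sum_const]
  refine sum_le_sum fun s hs => ?_
  obtain ⟨x, y, z, hxy, hxz, hyz, rfl⟩ := Finset.card_eq_three.mp (hH s hs)
  have hsub : (T.filter fun t => ({t.1, t.2.1, t.2.2} : Finset (Fin n)) = {x, y, z}) ⊆
      ({(x, y, z), (x, z, y), (y, x, z), (y, z, x), (z, x, y), (z, y, x)} :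
        Finset (Fin n × Fin n × Fin n)) := by
    rintro ⟨u, v, w⟩ ht
    have h1 : ({u, v, w} : Finset (Fin n)) = {x, y, z} := (mem_filter.mp ht).2
    have hc : ({u, v, w} : Finset (Fin n)).card = 3 := by
      rw [h1]
      exact Finset.card_eq_three.mpr ⟨x, y, z, hxy, hxz, hyz, rfl⟩
    have huv : u ≠ v := by
      rintro rfl
      have : ({u, u, w} : Finset (Fin n)) = {u, w} := by simp
      rw [this] at hc
      have := Finset.card_le_two (a := u) (b := w)
      omega
    have huw : u ≠ w := by
      rintro rfl
      have : ({u, v, u} : Finset (Fin n)) = {u, v} := by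
        ext t; simp only [mem_insert, mem_singleton]; tauto
      rw [this] at hc
      have := Finset.card_le_two (a := u) (b := v)
      omega
    have hvw : v ≠ w := by
      rintro rfl
      have : ({u, v, v} : Finset (Fin n)) = {u, v} := by simp
      rw [this] at hc
      have := Finset.card_le_two (a := u) (b := v)
      omega
    have hu : u ∈ ({x, y, z} : Finset (Fin n)) := by rw [← h1]; simp
    have hv : v ∈ ({x, y, z} : Finset (Fin n)) := by rw [← h1]; simp
    have hw : w ∈ ({x, y, z} : Finset (Fin n)) := by rw [← h1]; simp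
    simp only [mem_insert, mem_singleton] at hu hv hw
    simp only [mem_insert, mem_singleton, Prod.mk.injEq]
    rcases hu with rfl | rfl | rfl <;> rcases hv with rfl | rfl | rfl <;>
      rcases hw with rfl | rfl | rfl <;> simp_all
  exact (card_le_card hsub).trans (Finset.card_le_six)

/-- The number of a kind of edges. -/
def kk (i j : Fin 3) : ℕ := 2 * 4 ^ (i : ℕ) + 4 ^ (j : ℕ)

theorem card_filter_triple {x y z : Fin n} (hxy : x ≠ y) (hxz : x ≠ z) (hyz : y ≠ z)
    (c : Fin n → Fin 3) (i : Fin 3) :
    (({x, y, z} : Finset (Fin n)).filter fun v => c v = i).card =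
      (if c x = i then 1 else 0) + ((if c y = i then 1 else 0) + (if c z = i then 1 else 0)) := by
  rw [card_filter, sum_insert (by simp [hxy, hxz]), sum_insert (by simp [hyz]), sum_singleton]

theorem kinds : ∀ i j k l a b d : Fin 3, i ≠ j → k ≠ l →
    exK (kk i j) (kk k l) (a : ℕ) (b : ℕ) (d : ℕ) ≤ 1 ∧
    (exK (kk i j) (kk k l) (a : ℕ) (b : ℕ) (d : ℕ) = 1 →
      (((if a = i then 1 else 0) + ((if b = i then 1 else 0) + (if d = i then 1 else 0)) = 2 ∧
        (if a = j then 1 else 0) + ((if b = j then 1 else 0) + (if d = j then 1 else 0)) = 1) ∨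
      ((if a = k then 1 else 0) + ((if b = k then 1 else 0) + (if d = k then 1 else 0)) = 2 ∧
        (if a = l then 1 else 0) + ((if b = l then 1 else 0) + (if d = l then 1 else 0)) = 1))) := by
  decide +kernel

theorem bd_sum_le (H : Finset (Finset (Fin n))) (hH : ∀ e ∈ H, e.card = 3) (c : Fin n → Fin 3)
    {i j k l : Fin 3} (hij : i ≠ j) (hkl : k ≠ l) :
    ∑ a, ∑ b, ∑ d, bd (exK (kk i j) (kk k l)) (fun v => (c v : ℕ)) (tri H) a b d ≤
      6 * (kindEdges H c i j ∪ kindEdges H c k l).card := by
  refine le_trans (sum_le_sum fun a _ => sum_le_sum fun b _ => sum_le_sum fun d _ => ?_)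
    (tri_sum_le (kindEdges H c i j ∪ kindEdges H c k l) ?_)
  · unfold bd
    obtain ⟨h1, h2⟩ := kinds i j k l (c a) (c b) (c d) hij hkl
    rcases Nat.le_one_iff_eq_zero_or_eq_one.1 h1 with h0 | h0
    · rw [h0, Nat.zero_mul]; exact Nat.zero_le _
    · rw [h0, Nat.one_mul]
      rcases Nat.le_one_iff_eq_zero_or_eq_one.1 (tri_le H a b d) with h3 | h3
      · rw [h3]; exact Nat.zero_le _
      · have hm : ({a, b, d} : Finset (Fin n)) ∈ H := tri_eq_one.1 h3
        obtain ⟨hab, had, hbd⟩ := distinct_of_mem hH hm
        have hm' : ({a, b, d} : Finset (Fin n)) ∈ kindEdges H c i j ∪ kindEdges H c k l := by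
          rw [mem_union, kindEdges, kindEdges, mem_filter, mem_filter,
            card_filter_triple hab had hbd, card_filter_triple hab had hbd,
            card_filter_triple hab had hbd, card_filter_triple hab had hbd]
          rcases h2 h0 with h4 | h4
          · exact Or.inl ⟨hm, h4⟩
          · exact Or.inr ⟨hm, h4⟩
        rw [h3, tri_eq_one.2 hm']
  · intro e he
    rw [mem_union, kindEdges, kindEdges, mem_filter, mem_filter] at he
    rcases he with he | he <;> exact hH e he.1

end Pool.Agent.R81.TC
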