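import Pool.Agent.R81.TC.Tool2
import Pool.Agent.R81.TC.CyData

set_option autoImplicit false

namespace Pool.Agent.R81.TC.Cy

open Pool.Agent.Y439.Col

theorem tab0 : tabPart val rows ((268435456 : ℕ) : ℤ) (3 * 0) = true := by decide +kernel

theorem tab1 : tabPart val rows ((268435456 : ℕ) : ℤ) (3 * 1) = true := by decide +kernel

theorem tab2 : tabPart val rows ((268435456 : ℕ) : ℤ) (3 * 2) = true := by decide +kernel

theorem tab3 : tabPart val rows ((268435456 : ℕ) : ℤ) (3 * 3) = true := by decide +kernel

theorem tab4 : tabPart val rows ((268435456 : ℕ) : ℤ) (3 * 4) = true := by decide +kernel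

theorem tab5 : tabPart val rows ((268435456 : ℕ) : ℤ) (3 * 5) = true := by decide +kernel

theorem tab6 : tabPart val rows ((268435456 : ℕ) : ℤ) (3 * 6) = true := by decide +kernel

theorem tab7 : tabPart val rows ((268435456 : ℕ) : ℤ) (3 * 7) = true := by decide +kernel

theorem tab8 : tabPart val rows ((268435456 : ℕ) : ℤ) (3 * 8) = true := by decide +kernel

theorem tab9 : tabPart val rows ((268435456 : ℕ) : ℤ) (3 * 9) = true := by decide +kernel

theorem tab10 : tabPart val rows ((268435456 : ℕ) : ℤ) (3 * 10) = true := by decide +kernel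

theorem tab11 : tabPart val rows ((268435456 : ℕ) : ℤ) (3 * 11) = true := by decide +kernel

theorem tab12 : tabPart val rows ((268435456 : ℕ) : ℤ) (3 * 12) = true := by decide +kernel

theorem tab13 : tabPart val rows ((268435456 : ℕ) : ℤ) (3 * 13) = true := by decide +kernel

theorem tab14 : tabPart val rows ((268435456 : ℕ) : ℤ) (3 * 14) = true := by decide +kernel

theorem tab15 : tabPart val rows ((268435456 : ℕ) : ℤ) (3 * 15) = true := by decide +kernel

theorem tab16 : tabPart val rows ((268435456 : ℕ) : ℤ) (3 * 16) = true := by decide +kernel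

theorem tab17 : tabPart val rows ((268435456 : ℕ) : ℤ) (3 * 17) = true := by decide +kernel

theorem tab18 : tabPart val rows ((268435456 : ℕ) : ℤ) (3 * 18) = true := by decide +kernel

end Pool.Agent.R81.TC.Cy
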