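import Pool.Agent.R81.TC.Comb

set_option autoImplicit false

/-!
From the inequality given by a certificate to the inequality for the number of edges, and the
invariance of all terms under permutations of the three classes.
-/

namespace Pool.Agent.R81.TC
open Finset Pool.Agent.Y439.Col

variable {n : ℕ}

theorem edges_of {H : Finset (Finset (Fin n))} (h3 : ∀ e ∈ H, e.card = 3) (W T g A B D X Y : ℕ)
    (hW : 0 < W) (hA : 3 * T ≤ A * W) (hB : 6 * g ≤ B * W) (hX : X ≤ 6 * Y)
    (h : 90 * W * (Fintype.card (Fin n) ^ 2 * ∑ a, ∑ b, ∑ d, tri H a b d) ≤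
      50 * W * Fintype.card (Fin n) ^ 5 + 30 * (T * (Fintype.card (Fin n) ^ 2 * D)) +
        10 * (g * (Fintype.card (Fin n) ^ 2 * X))) :
    54 * H.card ≤ 5 * n ^ 3 + B * Y + A * D := by
  rw [Fintype.card_fin] at h
  rcases Nat.eq_zero_or_pos n with h0 | h0
  · have : H.card = 0 := by
      rw [card_eq_zero, eq_empty_iff_forall_notMem]
      intro e he
      have h1 := h3 e he
      have h2 := card_le_univ e
      rw [Fintype.card_fin] at h2
      omega
    rw [this]
    exact Nat.zero_le _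
  · have h6 := six_card_le h3
    set S := ∑ a, ∑ b, ∑ d, tri H a b d with hS
    have hn2 : 0 < n ^ 2 := by positivity
    have h7 : n ^ 2 * (90 * W * S) ≤ n ^ 2 * (50 * W * n ^ 3 + 30 * (T * D) + 10 * (g * X)) := by
      calc n ^ 2 * (90 * W * S) = 90 * W * (n ^ 2 * S) := by ring
        _ ≤ _ := h
        _ = _ := by ring
    have h8 := Nat.le_of_mul_le_mul_left h7 hn2
    have h9 : 10 * W * (54 * H.card) ≤ 10 * W * (5 * n ^ 3 + B * Y + A * D) := by
      calc 10 * W * (54 * H.card) = 90 * W * (6 * H.card) := by ring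
        _ ≤ 90 * W * S := Nat.mul_le_mul_left _ h6
        _ ≤ 50 * W * n ^ 3 + 30 * (T * D) + 10 * (g * X) := h8
        _ ≤ 50 * W * n ^ 3 + 30 * (T * D) + 10 * (g * (6 * Y)) := by gcongr
        _ = 50 * W * n ^ 3 + 10 * D * (3 * T) + 10 * Y * (6 * g) := by ring
        _ ≤ 50 * W * n ^ 3 + 10 * D * (A * W) + 10 * Y * (B * W) := by gcongr
        _ = _ := by ring
    exact Nat.le_of_mul_le_mul_left h9 (by positivity)

theorem kindEdges_perm (H : Finset (Finset (Fin n))) (c : Fin n → Fin 3) (σ : Equiv.Perm (Fin 3))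
    (i j : Fin 3) : kindEdges H (fun v => σ (c v)) (σ i) (σ j) = kindEdges H c i j := by
  unfold kindEdges
  simp only [EmbeddingLike.apply_eq_iff_eq]

theorem violation_perm (H : Finset (Finset (Fin n))) (c : Fin n → Fin 3)
    (σ : Equiv.Perm (Fin 3)) (a b a' b' : ℕ) :
    violation H (fun v => σ (c v)) a b a' b' = violation H c a b a' b' := by
  unfold violation innerDegree ownClass thirdClass transversalDegree
  simp only [Ne, EmbeddingLike.apply_eq_iff_eq]

/-- Any two kinds of edges with two vertices in one class and one in another are, after a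
permutation of the classes, one of four pairs. -/
theorem pairs : ∀ i j k l : Fin 3, i ≠ j → k ≠ l → ¬ (i = k ∧ j = l) →
    ∃ σ : Equiv.Perm (Fin 3),
      (σ i = 0 ∧ σ j = 2 ∧ σ k = 1 ∧ σ l = 0) ∨ (σ k = 0 ∧ σ l = 2 ∧ σ i = 1 ∧ σ j = 0) ∨
      (σ i = 0 ∧ σ j = 1 ∧ σ k = 1 ∧ σ l = 0) ∨
      (σ i = 0 ∧ σ j = 1 ∧ σ k = 0 ∧ σ l = 2) ∨
      (σ i = 0 ∧ σ j = 1 ∧ σ k = 2 ∧ σ l = 1) := by
  decide +kernel

theorem single : ∀ i j : Fin 3, i ≠ j → ∃ σ : Equiv.Perm (Fin 3), σ i = 0 ∧ σ j = 2 := by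
  decide +kernel

end Pool.Agent.R81.TC
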