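import Pool.Agent.R81.TC.MainC
import Pool.Agent.R81.TC.M1Data

set_option autoImplicit false

namespace Pool.Agent.R81.TC.M1

open Pool.Agent.Y439.Col

theorem chk002 : chkAt (exT 21 21 21) 958906 val (mqC tb) 60000
    (3000000 + 75 * 268435456 + 30 * 268435456) 0 0 2 = true := by
  decide +kernel

theorem chk011 : chkAt (exT 21 21 21) 958906 val (mqC tb) 60000
    (3000000 + 75 * 268435456 + 30 * 268435456) 0 1 1 = true := by
  decide +kernel

theorem chk012 : chkAt (exT 21 21 21) 958906 val (mqC tb) 60000
    (3000000 + 75 * 268435456 + 30 * 268435456) 0 1 2 = true := by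
  decide +kernel

theorem chk022 : chkAt (exT 21 21 21) 958906 val (mqC tb) 60000
    (3000000 + 75 * 268435456 + 30 * 268435456) 0 2 2 = true := by
  decide +kernel

end Pool.Agent.R81.TC.M1
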