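import Pool.Agent.R81.TC.M1A0
import Pool.Agent.R81.TC.M1A1
import Pool.Agent.R81.TC.M1B0
import Pool.Agent.R81.TC.M1B1
import Pool.Agent.R81.TC.M1B2

set_option autoImplicit false

namespace Pool.Agent.R81.TC.M1

open Pool.Agent.Y439.Col

theorem psd_all (k : ℕ) (hk : k < 19) : psdPart rows (3 * k) = true := by
  interval_cases k
  exacts [psd0, psd1, psd2, psd3, psd4, psd5, psd6, psd7, psd8, psd9, psd10, psd11, psd12, psd13, psd14, psd15, psd16, psd17, psd18]

theorem tab_all (k : ℕ) (hk : k < 19) :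
    tabPart val rows ((268435456 : ℕ) : ℤ) (3 * k) = true := by
  interval_cases k
  exacts [tab0, tab1, tab2, tab3, tab4, tab5, tab6, tab7, tab8, tab9, tab10, tab11, tab12, tab13, tab14, tab15, tab16, tab17, tab18]

theorem good : GoodA val rows 268435456 := goodA_parts tab_all psd_all

theorem tb_ok : tbOK tb 1 4 268435456 = true := by decide +kernel

theorem sym_ok : symOK (mqC tb) = true := by decide +kernel

theorem chk3 (C0 C1 C2 : ℕ) (h01 : C0 ≤ C1) (h12 : C1 ≤ C2) (h2 : C2 < 3) :
    chkAt (exT 21 21 21) 958906 val (mqC tb) 60000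
      (3000000 + 75 * 268435456 + 30 * 268435456) C0 C1 C2 = true := by
  have e0 : C0 = 0 ∨ C0 = 1 ∨ C0 = 2 := by omega
  have e1 : C1 = 0 ∨ C1 = 1 ∨ C1 = 2 := by omega
  have e2 : C2 = 0 ∨ C2 = 1 ∨ C2 = 2 := by omega
  rcases e0 with rfl | rfl | rfl <;> rcases e1 with rfl | rfl | rfl <;>
    rcases e2 with rfl | rfl | rfl
  · exact chk000
  · exact chk001
  · exact chk002
  · exact absurd h12 (by decide)
  · exact chk011
  · exact chk012
  · exact absurd h12 (by decide)
  · exact absurd h12 (by decide)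
  · exact chk022
  · exact absurd h01 (by decide)
  · exact absurd h01 (by decide)
  · exact absurd h01 (by decide)
  · exact absurd h12 (by decide)
  · exact chk111
  · exact chk112
  · exact absurd h12 (by decide)
  · exact absurd h12 (by decide)
  · exact chk122
  · exact absurd h01 (by decide)
  · exact absurd h01 (by decide)
  · exact absurd h01 (by decide)
  · exact absurd h01 (by decide)
  · exact absurd h01 (by decide)
  · exact absurd h01 (by decide)
  · exact absurd h12 (by decide)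
  · exact absurd h12 (by decide)
  · exact chk222

open Finset in
theorem final {V : Type*} [Fintype V] (c : V → ℕ) (hc : ∀ x, c x < 3)
    (hs : ∀ k < 3, 1 * Fintype.card V ≤ (3 * 1 + 4) * (univ.filter fun z => c z = k).card)
    (e : V → V → V → ℕ) (e1 : ∀ x y z, e x y z ≤ 1)
    (s1 : ∀ x y z, e x y z = e y x z) (s2 : ∀ x y z, e x y z = e x z y)
    (hK : ∀ x y z w, e x y z = 0 ∨ e x y w = 0 ∨ e x z w = 0 ∨ e y z w = 0) :
    90 * 60000 * (Fintype.card V ^ 2 * ∑ a, ∑ b, ∑ d, e a b d) ≤
      3000000 * Fintype.card V ^ 5 +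
        10 * (958906 * (Fintype.card V ^ 2 * ∑ a, ∑ b, ∑ d, bd (exT 21 21 21) c e a b d)) :=
  mainC good (exT 21 21 21) 958906 60000 3000000 (fun a b d _ _ _ => exT_sw1 _ _ _ a b d)
    (fun a b d _ _ _ => exT_sw2 _ _ _ a b d) tb 1 4 268435456 (by norm_num) tb_ok
    sym_ok (fun _ _ _ _ _ h01 h12 h23 h34 h4 =>
      chkAt_elim (chk3 _ _ _ h01 h12 (lt_of_le_of_lt (h23.trans h34) h4)) h23 h34 h4)
    c hc hs e e1 s1 s2 hK

end Pool.Agent.R81.TC.M1
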