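import Pool.Agent.R81.TC.Sets
import Pool.Agent.R81.TC.B3Chk
import Pool.Agent.R81.TC.M1Chk
import Pool.Agent.R81.TC.M3Chk
import Pool.Agent.R81.TC.M5Chk
import Pool.Agent.R81.TC.M6Chk

set_option autoImplicit false

/-!
3-graphs with a partition into three classes: the number of edges of a kind given by a family of
multisets of classes.
-/

namespace Pool.Agent.R81.TC
open Finset Pool.Agent.Y439.Col

variable {n : ℕ}

/-- The number of vertices of the class `l`. -/
def classSize (c : Fin n → Fin 3) (l : Fin 3) : ℕ := (univ.filter fun x => c x = l).card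

/-- The edges of `H` whose multiset of classes is in the list `F`. -/
def edgesIn (H : Finset (Finset (Fin n))) (c : Fin n → Fin 3) (F : List (Multiset (Fin 3))) :
    Finset (Finset (Fin n)) := H.filter fun e => e.val.map c ∈ F

theorem map_triple {x y z : Fin n} (hxy : x ≠ y) (hxz : x ≠ z) (hyz : y ≠ z)
    (c : Fin n → Fin 3) : ({x, y, z} : Finset (Fin n)).val.map c = {c x, c y, c z} := by
  rw [insert_val_of_notMem (by simp [hxy, hxz]), insert_val_of_notMem (by simp [hyz])]
  simp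

theorem bd_in_le (H : Finset (Finset (Fin n))) (hH : ∀ e ∈ H, e.card = 3) (c : Fin n → Fin 3)
    (F : List (Multiset (Fin 3))) (ex : ℕ → ℕ → ℕ → ℕ)
    (hex : ∀ a b d : Fin 3, ex (a : ℕ) (b : ℕ) (d : ℕ) ≤ 1 ∧
      (ex (a : ℕ) (b : ℕ) (d : ℕ) = 1 → ({a, b, d} : Multiset (Fin 3)) ∈ F)) :
    ∑ a, ∑ b, ∑ d, bd ex (fun v => (c v : ℕ)) (tri H) a b d ≤ 6 * (edgesIn H c F).card := by
  refine le_trans (sum_le_sum fun a _ => sum_le_sum fun b _ => sum_le_sum fun d _ => ?_)
    (tri_sum_le (edgesIn H c F) ?_)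
  · unfold bd
    obtain ⟨h1, h2⟩ := hex (c a) (c b) (c d)
    rcases Nat.le_one_iff_eq_zero_or_eq_one.1 h1 with h0 | h0
    · rw [h0, Nat.zero_mul]; exact Nat.zero_le _
    · rw [h0, Nat.one_mul]
      rcases Nat.le_one_iff_eq_zero_or_eq_one.1 (tri_le H a b d) with h3 | h3
      · rw [h3]; exact Nat.zero_le _
      · have hm : ({a, b, d} : Finset (Fin n)) ∈ H := tri_eq_one.1 h3
        obtain ⟨hab, had, hbd⟩ := distinct_of_mem hH hm
        have hm' : ({a, b, d} : Finset (Fin n)) ∈ edgesIn H c F := by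
          rw [edgesIn, mem_filter, map_triple hab had hbd]
          exact ⟨hm, h2 h0⟩
        rw [h3, tri_eq_one.2 hm']
  · intro e he
    exact hH e (mem_filter.1 he).1

theorem edgesIn_perm (H : Finset (Finset (Fin n))) (c : Fin n → Fin 3)
    (σ : Equiv.Perm (Fin 3)) (F : List (Multiset (Fin 3))) :
    edgesIn H (fun v => σ (c v)) (F.map (Multiset.map σ)) = edgesIn H c F := by
  unfold edgesIn
  refine filter_congr fun e _ => ?_
  have h : e.val.map (fun v => σ (c v)) = (e.val.map c).map σ := (Multiset.map_map σ c e.val).symm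
  rw [h]
  exact List.mem_map_of_injective (Multiset.map_injective σ.injective)

theorem classSize_perm (c : Fin n → Fin 3) (σ : Equiv.Perm (Fin 3)) (l : Fin 3) :
    classSize (fun v => σ (c v)) (σ l) = classSize c l := by
  unfold classSize
  simp only [EmbeddingLike.apply_eq_iff_eq]

theorem classSize_perm' {c : Fin n → Fin 3} {m : ℕ} (hs : ∀ l, n ≤ m * classSize c l)
    (σ : Equiv.Perm (Fin 3)) (l : Fin 3) : n ≤ m * classSize (fun v => σ (c v)) l := by
  have := hs (σ.symm l)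
  rwa [← classSize_perm c σ, Equiv.apply_symm_apply] at this

theorem size_cond {c : Fin n → Fin 3} {m : ℕ} (hs : ∀ l, n ≤ m * classSize c l) (k : ℕ)
    (hk : k < 3) : 1 * Fintype.card (Fin n) ≤ m *
      (univ.filter fun z => ((c z : Fin 3) : ℕ) = k).card := by
  have h := hs ⟨k, hk⟩
  rw [Fintype.card_fin, one_mul]
  have e : (univ.filter fun z => ((c z : Fin 3) : ℕ) = k) = univ.filter fun z => c z = ⟨k, hk⟩ := by
    ext z
    simp [Fin.ext_iff]
  rw [e]
  exact h

theorem edges_of' {H : Finset (Finset (Fin n))} (h3 : ∀ e ∈ H, e.card = 3) (W g B X Y K0 : ℕ)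
    (hW : 0 < W) (hK0 : K0 = 50 * W) (hB : 6 * g ≤ B * W) (hX : X ≤ 6 * Y)
    (h : 90 * W * (Fintype.card (Fin n) ^ 2 * ∑ a, ∑ b, ∑ d, tri H a b d) ≤
      K0 * Fintype.card (Fin n) ^ 5 + 10 * (g * (Fintype.card (Fin n) ^ 2 * X))) :
    54 * H.card ≤ 5 * n ^ 3 + B * Y := by
  have h1 := edges_of h3 W 0 g 0 B 0 X Y hW (by simp) hB hX (by
    rw [← hK0, Nat.zero_mul, Nat.mul_zero, Nat.add_zero]
    exact h)
  rwa [Nat.zero_mul, Nat.add_zero] at h1

/-- Any three distinct classes are, after a permutation, the classes 0, 1, 2. -/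
theorem perm_exists : ∀ i j k : Fin 3, i ≠ j → i ≠ k → j ≠ k →
    ∃ σ : Equiv.Perm (Fin 3), σ i = 0 ∧ σ j = 1 ∧ σ k = 2 := by decide +kernel

section

variable {H : Finset (Finset (Fin n))} (h3 : ∀ e ∈ H, e.card = 3)
  (hK : ∀ S : Finset (Fin n), S.card = 4 → ∃ T ⊆ S, T.card = 3 ∧ T ∉ H)
include h3 hK

theorem can1 (c : Fin n → Fin 3) (hs : ∀ l, n ≤ 7 * classSize c l) :
    54 * H.card ≤ 5 * n ^ 3 + 134 * (edgesIn H c [{0, 1, 2}]).card := by
  have h := M1.final (fun v => (c v : ℕ)) (fun x => (c x).isLt) (fun k hk => size_cond hs k hk)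
    (tri H) (tri_le H) (tri_s1 H) (tri_s2 H) (tri_k4 h3 hK)
  have hb := bd_in_le H h3 c [{0, 1, 2}] (exT 21 21 21) (by decide +kernel)
  exact edges_of' h3 60000 958906 134 _ _ 3000000 (by norm_num) (by norm_num) (by norm_num) hb h

theorem can3 (c : Fin n → Fin 3) (hs : ∀ l, n ≤ 7 * classSize c l) :
    54 * H.card ≤ 5 * n ^ 3 + 134 * (edgesIn H c [{0, 0, 1}, {2, 2, 1}]).card := by
  have h := M3.final (fun v => (c v : ℕ)) (fun x => (c x).isLt) (fun k hk => size_cond hs k hk)
    (tri H) (tri_le H) (tri_s1 H) (tri_s2 H) (tri_k4 h3 hK)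
  have hb := bd_in_le H h3 c [{0, 0, 1}, {2, 2, 1}] (exT 6 36 36) (by decide +kernel)
  exact edges_of' h3 60000 1272130 134 _ _ 3000000 (by norm_num) (by norm_num) (by norm_num) hb h

theorem can4 (c : Fin n → Fin 3) (hs : ∀ l, n ≤ 25 * classSize c l) :
    54 * H.card ≤ 5 * n ^ 3 + 134 * (edgesIn H c [{0, 0, 2}, {2, 2, 1}, {1, 1, 0}]).card := by
  have h := B3.final (fun v => (c v : ℕ)) (fun x => (c x).isLt) (fun k hk => size_cond hs k hk)
    (tri H) (tri_le H) (tri_s1 H) (tri_s2 H) (tri_k4 h3 hK)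
  have hb := bd_in_le H h3 c [{0, 0, 2}, {2, 2, 1}, {1, 1, 0}] (exT 18 9 36) (by decide +kernel)
  exact edges_of' h3 600000 10765738 134 _ _ 30000000 (by norm_num) (by norm_num) (by norm_num) hb h

theorem can5 (c : Fin n → Fin 3) (hs : ∀ l, n ≤ 7 * classSize c l) :
    54 * H.card ≤ 5 * n ^ 3 + 134 * (edgesIn H c [{1, 1, 0}, {0, 0, 2}, {2, 2, 2}]).card := by
  have h := M5.final (fun v => (c v : ℕ)) (fun x => (c x).isLt) (fun k hk => size_cond hs k hk)
    (tri H) (tri_le H) (tri_s1 H) (tri_s2 H) (tri_k4 h3 hK)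
  have hb := bd_in_le H h3 c [{1, 1, 0}, {0, 0, 2}, {2, 2, 2}] (exT 18 9 48) (by decide +kernel)
  exact edges_of' h3 60000 1335706 134 _ _ 3000000 (by norm_num) (by norm_num) (by norm_num) hb h

theorem can6 (c : Fin n → Fin 3) (hs : ∀ l, n ≤ 7 * classSize c l) :
    54 * H.card ≤ 5 * n ^ 3 + 134 * (edgesIn H c [{0, 0, 1}, {1, 1, 0}, {2, 2, 2}]).card := by
  have h := M6.final (fun v => (c v : ℕ)) (fun x => (c x).isLt) (fun k hk => size_cond hs k hk)
    (tri H) (tri_le H) (tri_s1 H) (tri_s2 H) (tri_k4 h3 hK)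
  have hb := bd_in_le H h3 c [{0, 0, 1}, {1, 1, 0}, {2, 2, 2}] (exT 6 9 48) (by decide +kernel)
  exact edges_of' h3 60000 1101463 134 _ _ 3000000 (by norm_num) (by norm_num) (by norm_num) hb h

theorem can2 (c : Fin n → Fin 3) (hs : ∀ l, n ≤ 7 * classSize c l) :
    54 * H.card ≤ 5 * n ^ 3 + 134 * (edgesIn H c [{0, 0, 1}, {0, 0, 2}]).card := by
  set A : Finset (Fin n) := univ.filter fun x => c x = 0 with hA
  have h0 := hs 0
  have h1 := hs 1
  have h2 := hs 2
  have hsum : classSize c 0 + classSize c 1 + classSize c 2 = n := by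
    have h := three_card (fun v => ((c v : Fin 3) : ℕ)) (fun x => (c x).isLt)
    rw [Fintype.card_fin] at h
    have e : ∀ k : Fin 3, (univ.filter fun z => ((c z : Fin 3) : ℕ) = (k : ℕ)).card =
        classSize c k := by
      intro k
      unfold classSize
      congr 1
      ext z
      simp [Fin.ext_iff]
    have e0 := e 0
    have e1 := e 1
    have e2 := e 2
    simp only [Fin.val_zero, Fin.val_one, Fin.val_two] at e0 e1 e2
    omega
  have hAc : A.card = classSize c 0 := rfl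
  have h := meet_two h3 hK A (by omega) (by omega)
  have hle : (meeting H A 2).card ≤ (edgesIn H c [{0, 0, 1}, {0, 0, 2}]).card := by
    refine card_le_card fun e he => ?_
    rw [meeting, mem_filter] at he
    rw [edgesIn, mem_filter]
    refine ⟨he.1, ?_⟩
    obtain ⟨x, y, z, hxy, hxz, hyz, rfl⟩ := Finset.card_eq_three.mp (h3 e he.1)
    have h5 := he.2
    rw [map_triple hxy hxz hyz]
    rw [card_inter_triple hxy hxz hyz] at h5
    simp only [cls_zero, hA, mem_filter, mem_univ, true_and] at h5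
    have hd : ∀ a b d : Fin 3, (if a = 0 then 1 else 0) + ((if b = 0 then 1 else 0) +
        (if d = 0 then 1 else 0)) = 2 → ({a, b, d} : Multiset (Fin 3)) ∈
          ([{0, 0, 1}, {0, 0, 2}] : List (Multiset (Fin 3))) := by decide +kernel
    exact hd _ _ _ h5
  omega

end

end Pool.Agent.R81.TC
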