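import Pool.Agent.Y439.Col.MMain

set_option autoImplicit false

/-!
Flag algebra of order five for 3-graphs with three labelled classes: the functional of a certificate
that need not be invariant under rotations of the classes (the engine of `Pool.Agent.Y439.Col`, with
the colours themselves instead of the colours relative to the first vertex).
-/

namespace Pool.Agent.R81.TC
open Finset Pool.Agent.Y439.Col

/-- Index of a flag over a triple. -/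
def f3A (y p q r : ℕ) : ℕ :=
  Nat.add (Nat.mul 8 y) (Nat.add p (Nat.add (Nat.mul 2 q) (Nat.mul 4 r)))

/-- Index of the type of a triple. -/
def tyA (a b d t : ℕ) : ℕ :=
  Nat.add (Nat.mul 2 (Nat.add (Nat.mul 9 a) (Nat.add (Nat.mul 3 b) d))) t

/-- Index of a flag over a vertex. -/
def f1A (y z p : ℕ) : ℕ :=
  Nat.add (Nat.mul 2 (Nat.add (Nat.add y z) (Nat.mul y z))) p

def w3A (val : ℕ → ℕ → ℕ → ℕ) (ca cb cd cu cv t p q r p' q' r' : ℕ) : ℕ :=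
  val (tyA ca cb cd t) (f3A cu p q r) (f3A cv p' q' r')

def w1A (val : ℕ → ℕ → ℕ → ℕ) (ca cy cz p cu cw q : ℕ) : ℕ :=
  val (Nat.add 54 ca) (f1A cy cz p) (f1A cu cw q)

theorem f3A_lt {y p q r : ℕ} (hy : y < 3) (hp : p ≤ 1) (hq : q ≤ 1) (hr : r ≤ 1) :
    f3A y p q r < 24 := by
  show 8 * y + (p + (2 * q + 4 * r)) < 24
  omega

theorem tyA_lt {a b d t : ℕ} (ha : a < 3) (hb : b < 3) (hd : d < 3) (ht : t ≤ 1) :
    tyA a b d t < 57 := by
  show 2 * (9 * a + (3 * b + d)) + t < 57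
  omega

theorem t1A_lt {a : ℕ} (ha : a < 3) : Nat.add 54 a < 57 := by
  show 54 + a < 57
  omega

theorem f1A_lt {y z p : ℕ} (hy : y < 3) (hz : z < 3) (hp : p ≤ 1) : f1A y z p < 24 := by
  show 2 * (y + z + y * z) + p < 24
  have : y * z ≤ 2 * 2 := Nat.mul_le_mul (by omega) (by omega)
  omega

theorem f1A_comm (y z p : ℕ) : f1A y z p = f1A z y p := by
  show 2 * (y + z + y * z) + p = 2 * (z + y + z * y) + p
  ring

def F10A (val : ℕ → ℕ → ℕ → ℕ) (W C0 C1 C2 C3 C4 b012 b013 b014 b023 b024 b034 b123 b124 b134 b234 : ℕ) : ℕ :=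
    ((w3A val C0 C1 C2 C3 C4 b012 b013 b023 b123 b014 b024 b124 +
     w3A val C0 C1 C3 C2 C4 b013 b012 b023 b123 b014 b034 b134 +
     w3A val C0 C1 C4 C2 C3 b014 b012 b024 b124 b013 b034 b134 +
     w3A val C0 C2 C1 C3 C4 b012 b023 b013 b123 b024 b014 b124 +
     w3A val C0 C2 C3 C1 C4 b023 b012 b013 b123 b024 b034 b234 +
     w3A val C0 C2 C4 C1 C3 b024 b012 b014 b124 b023 b034 b234 +
     w3A val C0 C3 C1 C2 C4 b013 b023 b012 b123 b034 b014 b134 +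
     w3A val C0 C3 C2 C1 C4 b023 b013 b012 b123 b034 b024 b234 +
     w3A val C0 C3 C4 C1 C2 b034 b013 b014 b134 b023 b024 b234 +
     w3A val C0 C4 C1 C2 C3 b014 b024 b012 b124 b034 b013 b134 +
     w3A val C0 C4 C2 C1 C3 b024 b014 b012 b124 b034 b023 b234 +
     w3A val C0 C4 C3 C1 C2 b034 b014 b013 b134 b024 b023 b234) +
    (w3A val C1 C0 C2 C3 C4 b012 b013 b123 b023 b014 b124 b024 +
     w3A val C1 C0 C3 C2 C4 b013 b012 b123 b023 b014 b134 b034 +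
     w3A val C1 C0 C4 C2 C3 b014 b012 b124 b024 b013 b134 b034 +
     w3A val C1 C2 C0 C3 C4 b012 b123 b013 b023 b124 b014 b024 +
     w3A val C1 C2 C3 C0 C4 b123 b012 b013 b023 b124 b134 b234 +
     w3A val C1 C2 C4 C0 C3 b124 b012 b014 b024 b123 b134 b234 +
     w3A val C1 C3 C0 C2 C4 b013 b123 b012 b023 b134 b014 b034 +
     w3A val C1 C3 C2 C0 C4 b123 b013 b012 b023 b134 b124 b234 +
     w3A val C1 C3 C4 C0 C2 b134 b013 b014 b034 b123 b124 b234 +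
     w3A val C1 C4 C0 C2 C3 b014 b124 b012 b024 b134 b013 b034 +
     w3A val C1 C4 C2 C0 C3 b124 b014 b012 b024 b134 b123 b234 +
     w3A val C1 C4 C3 C0 C2 b134 b014 b013 b034 b124 b123 b234) +
    (w3A val C2 C0 C1 C3 C4 b012 b023 b123 b013 b024 b124 b014 +
     w3A val C2 C0 C3 C1 C4 b023 b012 b123 b013 b024 b234 b034 +
     w3A val C2 C0 C4 C1 C3 b024 b012 b124 b014 b023 b234 b034 +
     w3A val C2 C1 C0 C3 C4 b012 b123 b023 b013 b124 b024 b014 +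
     w3A val C2 C1 C3 C0 C4 b123 b012 b023 b013 b124 b234 b134 +
     w3A val C2 C1 C4 C0 C3 b124 b012 b024 b014 b123 b234 b134 +
     w3A val C2 C3 C0 C1 C4 b023 b123 b012 b013 b234 b024 b034 +
     w3A val C2 C3 C1 C0 C4 b123 b023 b012 b013 b234 b124 b134 +
     w3A val C2 C3 C4 C0 C1 b234 b023 b024 b034 b123 b124 b134 +
     w3A val C2 C4 C0 C1 C3 b024 b124 b012 b014 b234 b023 b034 +
     w3A val C2 C4 C1 C0 C3 b124 b024 b012 b014 b234 b123 b134 +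
     w3A val C2 C4 C3 C0 C1 b234 b024 b023 b034 b124 b123 b134) +
    (w3A val C3 C0 C1 C2 C4 b013 b023 b123 b012 b034 b134 b014 +
     w3A val C3 C0 C2 C1 C4 b023 b013 b123 b012 b034 b234 b024 +
     w3A val C3 C0 C4 C1 C2 b034 b013 b134 b014 b023 b234 b024 +
     w3A val C3 C1 C0 C2 C4 b013 b123 b023 b012 b134 b034 b014 +
     w3A val C3 C1 C2 C0 C4 b123 b013 b023 b012 b134 b234 b124 +
     w3A val C3 C1 C4 C0 C2 b134 b013 b034 b014 b123 b234 b124 +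
     w3A val C3 C2 C0 C1 C4 b023 b123 b013 b012 b234 b034 b024 +
     w3A val C3 C2 C1 C0 C4 b123 b023 b013 b012 b234 b134 b124 +
     w3A val C3 C2 C4 C0 C1 b234 b023 b034 b024 b123 b134 b124 +
     w3A val C3 C4 C0 C1 C2 b034 b134 b013 b014 b234 b023 b024 +
     w3A val C3 C4 C1 C0 C2 b134 b034 b013 b014 b234 b123 b124 +
     w3A val C3 C4 C2 C0 C1 b234 b034 b023 b024 b134 b123 b124) +
    (w3A val C4 C0 C1 C2 C3 b014 b024 b124 b012 b034 b134 b013 +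
     w3A val C4 C0 C2 C1 C3 b024 b014 b124 b012 b034 b234 b023 +
     w3A val C4 C0 C3 C1 C2 b034 b014 b134 b013 b024 b234 b023 +
     w3A val C4 C1 C0 C2 C3 b014 b124 b024 b012 b134 b034 b013 +
     w3A val C4 C1 C2 C0 C3 b124 b014 b024 b012 b134 b234 b123 +
     w3A val C4 C1 C3 C0 C2 b134 b014 b034 b013 b124 b234 b123 +
     w3A val C4 C2 C0 C1 C3 b024 b124 b014 b012 b234 b034 b023 +
     w3A val C4 C2 C1 C0 C3 b124 b024 b014 b012 b234 b134 b123 +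
     w3A val C4 C2 C3 C0 C1 b234 b024 b034 b023 b124 b134 b123 +
     w3A val C4 C3 C0 C1 C2 b034 b134 b014 b013 b234 b024 b023 +
     w3A val C4 C3 C1 C0 C2 b134 b034 b014 b013 b234 b124 b123 +
     w3A val C4 C3 C2 C0 C1 b234 b034 b024 b023 b134 b124 b123)) +
    (w1A val C0 C1 C2 b012 C3 C4 b034 + w1A val C0 C1 C3 b013 C2 C4 b024 +
    w1A val C0 C1 C4 b014 C2 C3 b023 + w1A val C1 C0 C2 b012 C3 C4 b134 +
    w1A val C1 C0 C3 b013 C2 C4 b124 + w1A val C1 C0 C4 b014 C2 C3 b123 +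
    w1A val C2 C0 C1 b012 C3 C4 b234 + w1A val C2 C0 C3 b023 C1 C4 b124 +
    w1A val C2 C0 C4 b024 C1 C3 b123 + w1A val C3 C0 C1 b013 C2 C4 b234 +
    w1A val C3 C0 C2 b023 C1 C4 b134 + w1A val C3 C0 C4 b034 C1 C2 b123 +
    w1A val C4 C0 C1 b014 C2 C3 b234 + w1A val C4 C0 C2 b024 C1 C3 b134 +
    w1A val C4 C0 C3 b034 C1 C2 b124) +
    9 * W * (b012 + b013 + b014 + b023 + b024 + b034 + b123 + b124 + b134 + b234)


variable {V : Type*}

def v3A (val : ℕ → ℕ → ℕ → ℕ) (c : V → ℕ) (e : V → V → V → ℕ) (a b d u v : V) : ℕ :=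
  w3A val (c a) (c b) (c d) (c u) (c v) (e a b d) (e a b u) (e a d u) (e b d u) (e a b v)
    (e a d v) (e b d v)

def v1A (val : ℕ → ℕ → ℕ → ℕ) (c : V → ℕ) (e : V → V → V → ℕ) (a y z u w : V) : ℕ :=
  w1A val (c a) (c y) (c z) (e a y z) (c u) (c w) (e a u w)

theorem F10A_eq (val : ℕ → ℕ → ℕ → ℕ) (W : ℕ) (c : V → ℕ) (e : V → V → V → ℕ)
    (s1 : ∀ x y z, e x y z = e y x z) (s2 : ∀ x y z, e x y z = e x z y) (x0 x1 x2 x3 x4 : V) :
    F10A val W (c x0) (c x1) (c x2) (c x3) (c x4)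
      (e x0 x1 x2) (e x0 x1 x3) (e x0 x1 x4) (e x0 x2 x3) (e x0 x2 x4) (e x0 x3 x4) (e x1 x2 x3) (e x1 x2 x4) (e x1 x3 x4) (e x2 x3 x4) =
    S60 (v3A val c e) x0 x1 x2 x3 x4 + S15 (v1A val c e) x0 x1 x2 x3 x4 +
      9 * W * S10 e x0 x1 x2 x3 x4 := by
  have q021 : e x0 x2 x1 = e x0 x1 x2 := s2 _ _ _
  have q102 : e x1 x0 x2 = e x0 x1 x2 := s1 _ _ _
  have q120 : e x1 x2 x0 = e x0 x1 x2 := (s2 _ _ _).trans (s1 _ _ _)
  have q201 : e x2 x0 x1 = e x0 x1 x2 := (s1 _ _ _).trans (s2 _ _ _)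
  have q210 : e x2 x1 x0 = e x0 x1 x2 := (s2 _ _ _).trans ((s1 _ _ _).trans (s2 _ _ _))
  have q031 : e x0 x3 x1 = e x0 x1 x3 := s2 _ _ _
  have q103 : e x1 x0 x3 = e x0 x1 x3 := s1 _ _ _
  have q130 : e x1 x3 x0 = e x0 x1 x3 := (s2 _ _ _).trans (s1 _ _ _)
  have q301 : e x3 x0 x1 = e x0 x1 x3 := (s1 _ _ _).trans (s2 _ _ _)
  have q310 : e x3 x1 x0 = e x0 x1 x3 := (s2 _ _ _).trans ((s1 _ _ _).trans (s2 _ _ _))
  have q041 : e x0 x4 x1 = e x0 x1 x4 := s2 _ _ _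
  have q104 : e x1 x0 x4 = e x0 x1 x4 := s1 _ _ _
  have q140 : e x1 x4 x0 = e x0 x1 x4 := (s2 _ _ _).trans (s1 _ _ _)
  have q401 : e x4 x0 x1 = e x0 x1 x4 := (s1 _ _ _).trans (s2 _ _ _)
  have q410 : e x4 x1 x0 = e x0 x1 x4 := (s2 _ _ _).trans ((s1 _ _ _).trans (s2 _ _ _))
  have q032 : e x0 x3 x2 = e x0 x2 x3 := s2 _ _ _
  have q203 : e x2 x0 x3 = e x0 x2 x3 := s1 _ _ _
  have q230 : e x2 x3 x0 = e x0 x2 x3 := (s2 _ _ _).trans (s1 _ _ _)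
  have q302 : e x3 x0 x2 = e x0 x2 x3 := (s1 _ _ _).trans (s2 _ _ _)
  have q320 : e x3 x2 x0 = e x0 x2 x3 := (s2 _ _ _).trans ((s1 _ _ _).trans (s2 _ _ _))
  have q042 : e x0 x4 x2 = e x0 x2 x4 := s2 _ _ _
  have q204 : e x2 x0 x4 = e x0 x2 x4 := s1 _ _ _
  have q240 : e x2 x4 x0 = e x0 x2 x4 := (s2 _ _ _).trans (s1 _ _ _)
  have q402 : e x4 x0 x2 = e x0 x2 x4 := (s1 _ _ _).trans (s2 _ _ _)
  have q420 : e x4 x2 x0 = e x0 x2 x4 := (s2 _ _ _).trans ((s1 _ _ _).trans (s2 _ _ _))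
  have q043 : e x0 x4 x3 = e x0 x3 x4 := s2 _ _ _
  have q304 : e x3 x0 x4 = e x0 x3 x4 := s1 _ _ _
  have q340 : e x3 x4 x0 = e x0 x3 x4 := (s2 _ _ _).trans (s1 _ _ _)
  have q403 : e x4 x0 x3 = e x0 x3 x4 := (s1 _ _ _).trans (s2 _ _ _)
  have q430 : e x4 x3 x0 = e x0 x3 x4 := (s2 _ _ _).trans ((s1 _ _ _).trans (s2 _ _ _))
  have q132 : e x1 x3 x2 = e x1 x2 x3 := s2 _ _ _
  have q213 : e x2 x1 x3 = e x1 x2 x3 := s1 _ _ _
  have q231 : e x2 x3 x1 = e x1 x2 x3 := (s2 _ _ _).trans (s1 _ _ _)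
  have q312 : e x3 x1 x2 = e x1 x2 x3 := (s1 _ _ _).trans (s2 _ _ _)
  have q321 : e x3 x2 x1 = e x1 x2 x3 := (s2 _ _ _).trans ((s1 _ _ _).trans (s2 _ _ _))
  have q142 : e x1 x4 x2 = e x1 x2 x4 := s2 _ _ _
  have q214 : e x2 x1 x4 = e x1 x2 x4 := s1 _ _ _
  have q241 : e x2 x4 x1 = e x1 x2 x4 := (s2 _ _ _).trans (s1 _ _ _)
  have q412 : e x4 x1 x2 = e x1 x2 x4 := (s1 _ _ _).trans (s2 _ _ _)
  have q421 : e x4 x2 x1 = e x1 x2 x4 := (s2 _ _ _).trans ((s1 _ _ _).trans (s2 _ _ _))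
  have q143 : e x1 x4 x3 = e x1 x3 x4 := s2 _ _ _
  have q314 : e x3 x1 x4 = e x1 x3 x4 := s1 _ _ _
  have q341 : e x3 x4 x1 = e x1 x3 x4 := (s2 _ _ _).trans (s1 _ _ _)
  have q413 : e x4 x1 x3 = e x1 x3 x4 := (s1 _ _ _).trans (s2 _ _ _)
  have q431 : e x4 x3 x1 = e x1 x3 x4 := (s2 _ _ _).trans ((s1 _ _ _).trans (s2 _ _ _))
  have q243 : e x2 x4 x3 = e x2 x3 x4 := s2 _ _ _
  have q324 : e x3 x2 x4 = e x2 x3 x4 := s1 _ _ _
  have q342 : e x3 x4 x2 = e x2 x3 x4 := (s2 _ _ _).trans (s1 _ _ _)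
  have q423 : e x4 x2 x3 = e x2 x3 x4 := (s1 _ _ _).trans (s2 _ _ _)
  have q432 : e x4 x3 x2 = e x2 x3 x4 := (s2 _ _ _).trans ((s1 _ _ _).trans (s2 _ _ _))
  simp only [F10A, S60, S15, S10, v3A, v1A, q021, q102, q120, q201, q210, q031, q103, q130, q301, q310, q041, q104, q140, q401, q410,
    q032, q203, q230, q302, q320, q042, q204, q240, q402, q420, q043, q304, q340, q403, q430,
    q132, q213, q231, q312, q321, q142, q214, q241, q412, q421, q143, q314, q341, q413, q431,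
    q243, q324, q342, q423, q432]

/-- The number of edges of the excluded kinds in a state with sorted colours. -/
def B10 (ex : ℕ → ℕ → ℕ → ℕ) (C0 C1 C2 C3 C4 b012 b013 b014 b023 b024 b034 b123 b124 b134 b234 : ℕ) : ℕ :=
  ex C0 C1 C2 * b012 +
  ex C0 C1 C3 * b013 +
  ex C0 C1 C4 * b014 +
  ex C0 C2 C3 * b023 +
  ex C0 C2 C4 * b024 +
  ex C0 C3 C4 * b034 +
  ex C1 C2 C3 * b123 +
  ex C1 C2 C4 * b124 +
  ex C1 C3 C4 * b134 +
  ex C2 C3 C4 * b234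

/-- The inequality for all states with the given colours. -/
def chkA (ex : ℕ → ℕ → ℕ → ℕ) (g : ℕ) (val : ℕ → ℕ → ℕ → ℕ)
    (mv : ℕ → ℕ → ℕ → ℕ → ℕ → ℕ → ℕ → ℕ → ℕ → ℕ → ℕ) (W K C0 C1 C2 C3 C4 : ℕ) : Bool :=
  b2 false fun b012 =>
  b2 false fun b013 =>
  b2 false fun b023 =>
  b2 false fun b123 =>
  (k4 b012 b013 b023 b123 || (
  b2 false fun b014 =>
  b2 false fun b024 =>
  b2 false fun b124 =>
  (k4 b012 b014 b024 b124 || (
  b2 false fun b034 =>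
  b2 false fun b134 =>
  (k4 b013 b014 b034 b134 || (
  b2 false fun b234 =>
  (k4 b023 b024 b034 b234 || (
  (k4 b123 b124 b134 b234 || (
  Nat.ble (Nat.add (F10A val W C0 C1 C2 C3 C4 b012 b013 b014 b023 b024 b034 b123 b124 b134 b234)
    (M30 mv C0 C1 C2 C3 C4 b012 b013 b014 b023 b024 b034 b123 b124 b134 b234))
    (Nat.add K (Nat.mul g
      (B10 ex C0 C1 C2 C3 C4 b012 b013 b014 b023 b024 b034 b123 b124 b134 b234)))))))))))))

theorem chkA_sound (ex : ℕ → ℕ → ℕ → ℕ) (g : ℕ) (val : ℕ → ℕ → ℕ → ℕ)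
    (mv : ℕ → ℕ → ℕ → ℕ → ℕ → ℕ → ℕ → ℕ → ℕ → ℕ → ℕ)
    (W K C0 C1 C2 C3 C4 b012 b013 b014 b023 b024 b034 b123 b124 b134 b234 : ℕ)
    (h : chkA ex g val mv W K C0 C1 C2 C3 C4 = true)
    (h012 : b012 ≤ 1) (h013 : b013 ≤ 1) (h023 : b023 ≤ 1) (h123 : b123 ≤ 1) (h014 : b014 ≤ 1)
    (h024 : b024 ≤ 1) (h124 : b124 ≤ 1) (h034 : b034 ≤ 1) (h134 : b134 ≤ 1) (h234 : b234 ≤ 1)
    (k0123 : ¬ k4 b012 b013 b023 b123 = true)
    (k0124 : ¬ k4 b012 b014 b024 b124 = true)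
    (k0134 : ¬ k4 b013 b014 b034 b134 = true)
    (k0234 : ¬ k4 b023 b024 b034 b234 = true)
    (k1234 : ¬ k4 b123 b124 b134 b234 = true) :
    F10A val W C0 C1 C2 C3 C4 b012 b013 b014 b023 b024 b034 b123 b124 b134 b234 +
      M30 mv C0 C1 C2 C3 C4 b012 b013 b014 b023 b024 b034 b123 b124 b134 b234 ≤
      K + g * B10 ex C0 C1 C2 C3 C4 b012 b013 b014 b023 b024 b034 b123 b124 b134 b234 := by
  have ff : ∀ {b : ℕ}, false = true → b = 0 := fun h => absurd h (by decide)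
  unfold chkA at h
  replace h := b2_elim h h012 ff
  replace h := b2_elim h h013 ff
  replace h := b2_elim h h023 ff
  replace h := b2_elim h h123 ff
  replace h := or_elim' h k0123
  replace h := b2_elim h h014 ff
  replace h := b2_elim h h024 ff
  replace h := b2_elim h h124 ff
  replace h := or_elim' h k0124
  replace h := b2_elim h h034 ff
  replace h := b2_elim h h134 ff
  replace h := or_elim' h k0134
  replace h := b2_elim h h234 ff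
  replace h := or_elim' h k0234
  replace h := or_elim' h k1234
  exact Nat.le_of_ble_eq_true h

/-- The indicator of an edge of an excluded kind. -/
def bd (ex : ℕ → ℕ → ℕ → ℕ) (c : V → ℕ) (e : V → V → V → ℕ) (x y z : V) : ℕ :=
  ex (c x) (c y) (c z) * e x y z

end Pool.Agent.R81.TC
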