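import Pool.Agent.R81.TC.Tool2
import Pool.Agent.R81.TC.J2bData

set_option autoImplicit false

namespace Pool.Agent.R81.TC.J2b

open Pool.Agent.Y439.Col

theorem psd0 : psdPart rows (3 * 0) = true := by decide +kernel

theorem psd1 : psdPart rows (3 * 1) = true := by decide +kernel

theorem psd2 : psdPart rows (3 * 2) = true := by decide +kernel

theorem psd3 : psdPart rows (3 * 3) = true := by decide +kernel

theorem psd4 : psdPart rows (3 * 4) = true := by decide +kernel

theorem psd5 : psdPart rows (3 * 5) = true := by decide +kernel

theorem psd6 : psdPart rows (3 * 6) = true := by decide +kernel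

theorem psd7 : psdPart rows (3 * 7) = true := by decide +kernel

theorem psd8 : psdPart rows (3 * 8) = true := by decide +kernel

theorem psd9 : psdPart rows (3 * 9) = true := by decide +kernel

theorem psd10 : psdPart rows (3 * 10) = true := by decide +kernel

theorem psd11 : psdPart rows (3 * 11) = true := by decide +kernel

theorem psd12 : psdPart rows (3 * 12) = true := by decide +kernel

theorem psd13 : psdPart rows (3 * 13) = true := by decide +kernel

theorem psd14 : psdPart rows (3 * 14) = true := by decide +kernel

theorem psd15 : psdPart rows (3 * 15) = true := by decide +kernel

theorem psd16 : psdPart rows (3 * 16) = true := by decide +kernel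

theorem psd17 : psdPart rows (3 * 17) = true := by decide +kernel

theorem psd18 : psdPart rows (3 * 18) = true := by decide +kernel

end Pool.Agent.R81.TC.J2b
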