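import Pool.Agent.R81.TC.J2bA0
import Pool.Agent.R81.TC.J2bA1
import Pool.Agent.R81.TC.J2bB

set_option autoImplicit false

namespace Pool.Agent.R81.TC.J2b

open Pool.Agent.Y439.Col

theorem psd_all (k : ℕ) (hk : k < 19) : psdPart rows (3 * k) = true := by
  interval_cases k
  exacts [psd0, psd1, psd2, psd3, psd4, psd5, psd6, psd7, psd8, psd9, psd10, psd11, psd12, psd13, psd14, psd15, psd16, psd17, psd18]

theorem tab_all (k : ℕ) (hk : k < 19) :
    tabPart val rows ((268435456 : ℕ) : ℤ) (3 * k) = true := by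
  interval_cases k
  exacts [tab0, tab1, tab2, tab3, tab4, tab5, tab6, tab7, tab8, tab9, tab10, tab11, tab12, tab13, tab14, tab15, tab16, tab17, tab18]

theorem good : GoodA val rows 268435456 := goodA_parts tab_all psd_all

theorem m3_ok : (allb 8 fun i => Nat.ble (Nat.mul (m3 i) 3) 268435456 &&
    Nat.ble (Nat.mul (m3 i) 741) 268435456) = true := by decide +kernel

theorem sym_ok : symOK (mqB m3 268435456 3 128 741) = true := by decide +kernel

theorem chk3 (C0 C1 C2 : ℕ) (h01 : C0 ≤ C1) (h12 : C1 ≤ C2) (h2 : C2 < 2) :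
    chkAt2 (exK 6 6) 3048591 val (mqB m3 268435456 3 128 741) 150000
      (7495000 + 75 * 268435456 + 30 * 268435456) C0 C1 C2 = true := by
  have e0 : C0 = 0 ∨ C0 = 1 := by omega
  have e1 : C1 = 0 ∨ C1 = 1 := by omega
  have e2 : C2 = 0 ∨ C2 = 1 := by omega
  rcases e0 with rfl | rfl <;> rcases e1 with rfl | rfl <;> rcases e2 with rfl | rfl
  · exact chk000
  · exact chk001
  · exact absurd h12 (by decide)
  · exact chk011
  · exact absurd h01 (by decide)
  · exact absurd h01 (by decide)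
  · exact absurd h12 (by decide)
  · exact chk111

open Finset in
theorem final {V : Type*} [Fintype V] (c : V → ℕ) (hc : ∀ x, c x < 2)
    (hsz : 3 * (univ.filter fun w => c w = 0).card ^ 2 +
      741 * (univ.filter fun w => ¬ c w = 0).card ^ 2 ≤
      2 * 128 * ((univ.filter fun w => c w = 0).card * (univ.filter fun w => ¬ c w = 0).card))
    (e : V → V → V → ℕ) (e1 : ∀ x y z, e x y z ≤ 1)
    (s1 : ∀ x y z, e x y z = e y x z) (s2 : ∀ x y z, e x y z = e x z y)
    (hK : ∀ x y z w, e x y z = 0 ∨ e x y w = 0 ∨ e x z w = 0 ∨ e y z w = 0) :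
    90 * 150000 * (Fintype.card V ^ 2 * ∑ a, ∑ b, ∑ d, e a b d) ≤
      7495000 * Fintype.card V ^ 5 +
        10 * (3048591 * (Fintype.card V ^ 2 * ∑ a, ∑ b, ∑ d, bd (exK 6 6) c e a b d)) :=
  mainB good (exK 6 6) 3048591 150000 7495000 (fun a b d _ _ _ => exK_sw1 _ _ a b d)
    (fun a b d _ _ _ => exK_sw2 _ _ a b d) m3 268435456 3 128 741
    (fun i hi => Nat.le_of_ble_eq_true ((Bool.and_eq_true _ _).mp (allb_elim m3_ok i hi)).1)
    (fun i hi => Nat.le_of_ble_eq_true ((Bool.and_eq_true _ _).mp (allb_elim m3_ok i hi)).2)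
    sym_ok (fun _ _ _ _ _ h01 h12 h23 h34 h4 =>
      chkAt2_elim (chk3 _ _ _ h01 h12 (lt_of_le_of_lt (h23.trans h34) h4)) h23 h34 h4)
    c hc hsz e e1 s1 s2 hK

end Pool.Agent.R81.TC.J2b
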