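import Pool.Agent.R81.TC.MainB
import Pool.Agent.R81.TC.J3Data

set_option autoImplicit false

namespace Pool.Agent.R81.TC.J3

open Pool.Agent.Y439.Col

theorem chk000 : chkAt2 (exK 3 3) 55379372 val (mqB m3 268435456 0 97 206) 1500000
    (74950000 + 75 * 268435456 + 30 * 268435456) 0 0 0 = true := by
  decide +kernel

theorem chk001 : chkAt2 (exK 3 3) 55379372 val (mqB m3 268435456 0 97 206) 1500000
    (74950000 + 75 * 268435456 + 30 * 268435456) 0 0 1 = true := by
  decide +kernel

theorem chk011 : chkAt2 (exK 3 3) 55379372 val (mqB m3 268435456 0 97 206) 1500000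
    (74950000 + 75 * 268435456 + 30 * 268435456) 0 1 1 = true := by
  decide +kernel

theorem chk111 : chkAt2 (exK 3 3) 55379372 val (mqB m3 268435456 0 97 206) 1500000
    (74950000 + 75 * 268435456 + 30 * 268435456) 1 1 1 = true := by
  decide +kernel

end Pool.Agent.R81.TC.J3
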