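import Pool.Agent.R81.TC.FuncA

set_option autoImplicit false

/-!
The inequality obtained from a certificate (not necessarily invariant under rotations of the three
classes) with multipliers and a term counting the edges of excluded kinds.
-/

namespace Pool.Agent.R81.TC
open Finset Pool.Agent.Y439.Col

structure GoodA (val : ℕ → ℕ → ℕ → ℕ) (rows : ℕ → List (List ℤ)) (OFF : ℕ) : Prop where
  hval : ∀ t < 57, ∀ f < 24, ∀ g < 24, (val t f g : ℤ) = ent (rows t) f g + OFF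
  hpsd : ∀ t < 57, psd 24 1 (rows t) = true

variable {val : ℕ → ℕ → ℕ → ℕ} {rows : ℕ → List (List ℤ)} {OFF : ℕ}

theorem GoodA.comm (hG : GoodA val rows OFF) {t f g : ℕ} (ht : t < 57) (hf : f < 24)
    (hg : g < 24) : val t f g = val t g f := by
  have h1 := hG.hval t ht f hf g hg
  have h2 := hG.hval t ht g hg f hf
  rw [ent_comm] at h2
  have : (val t f g : ℤ) = val t g f := by rw [h1, h2]
  exact_mod_cast this

theorem GoodA.sum_ge (hG : GoodA val rows OFF) {Y : Type*} [Fintype Y] (t : ℕ) (ht : t < 57)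
    (fl : Y → ℕ) (hf : ∀ y, fl y < 24) :
    OFF * Fintype.card Y ^ 2 ≤ ∑ y, ∑ z, val t (fl y) (fl z) := by
  have h := sum_nonneg_of_psd (univ : Finset Y) fl 24 (rows t) (hG.hpsd t ht)
  have e : ∑ y, ∑ z, ((val t (fl y) (fl z) : ℕ) : ℤ) =
      ∑ y, ∑ z, ent (rows t) (fl y) (fl z) + OFF * Fintype.card Y ^ 2 := by
    have : ∀ y z, ((val t (fl y) (fl z) : ℕ) : ℤ) = ent (rows t) (fl y) (fl z) + OFF :=
      fun y z => hG.hval t ht _ (hf y) _ (hf z)
    simp only [this, sum_add_distrib, sum_const, card_univ, nsmul_eq_mul]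
    ring
  have h2 : ((OFF * Fintype.card Y ^ 2 : ℕ) : ℤ) ≤ ((∑ y, ∑ z, val t (fl y) (fl z) : ℕ) : ℤ) := by
    push_cast
    rw [e]
    linarith
  exact_mod_cast h2

variable {V : Type*} [Fintype V]

theorem v3A_sum (hG : GoodA val rows OFF) (c : V → ℕ) (hc : ∀ x, c x < 3) (e : V → V → V → ℕ)
    (e1 : ∀ x y z, e x y z ≤ 1) :
    OFF * Fintype.card V ^ 5 ≤
      ∑ x : Fin 5 → V, v3A val c e (x 0) (x 1) (x 2) (x 3) (x 4) := by
  rw [sum_five]
  have h : ∀ a b d : V, OFF * Fintype.card V ^ 2 ≤ ∑ u, ∑ v, v3A val c e a b d u v := by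
    intro a b d
    exact hG.sum_ge (tyA (c a) (c b) (c d) (e a b d)) (tyA_lt (hc _) (hc _) (hc _) (e1 _ _ _))
      (fun u => f3A (c u) (e a b u) (e a d u) (e b d u))
      (fun u => f3A_lt (hc _) (e1 _ _ _) (e1 _ _ _) (e1 _ _ _))
  calc OFF * Fintype.card V ^ 5
      = ∑ _a : V, ∑ _b : V, ∑ _d : V, OFF * Fintype.card V ^ 2 := by
        simp only [sum_const, card_univ, smul_eq_mul]; ring
    _ ≤ _ := sum_le_sum fun a _ => sum_le_sum fun b _ => sum_le_sum fun d _ => h a b d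

theorem v1A_sum (hG : GoodA val rows OFF) (c : V → ℕ) (hc : ∀ x, c x < 3) (e : V → V → V → ℕ)
    (e1 : ∀ x y z, e x y z ≤ 1) :
    OFF * Fintype.card V ^ 5 ≤
      ∑ x : Fin 5 → V, v1A val c e (x 0) (x 1) (x 2) (x 3) (x 4) := by
  rw [sum_five]
  have h : ∀ a : V, OFF * Fintype.card V ^ 4 ≤ ∑ y, ∑ z, ∑ u, ∑ w, v1A val c e a y z u w := by
    intro a
    have h1 := hG.sum_ge (Y := V × V) (Nat.add 54 (c a)) (t1A_lt (hc a))
      (fun p => f1A (c p.1) (c p.2) (e a p.1 p.2)) (fun p => f1A_lt (hc _) (hc _) (e1 _ _ _))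
    rw [Fintype.card_prod] at h1
    have h2 : ∑ y : V × V, ∑ z : V × V, val (Nat.add 54 (c a)) (f1A (c y.1) (c y.2) (e a y.1 y.2))
        (f1A (c z.1) (c z.2) (e a z.1 z.2)) = ∑ y, ∑ z, ∑ u, ∑ w, v1A val c e a y z u w := by
      rw [Fintype.sum_prod_type]
      refine sum_congr rfl fun y _ => sum_congr rfl fun z _ => ?_
      rw [Fintype.sum_prod_type]
      rfl
    rw [h2] at h1
    calc OFF * Fintype.card V ^ 4 = OFF * (Fintype.card V * Fintype.card V) ^ 2 := by ring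
      _ ≤ _ := h1
  calc OFF * Fintype.card V ^ 5 = ∑ _a : V, OFF * Fintype.card V ^ 4 := by
        simp only [sum_const, card_univ, smul_eq_mul]; ring
    _ ≤ _ := sum_le_sum fun a _ => h a

/-- Index of a four-vertex state with a marked pair. -/
def mixA (x y u w b1 b2 b3 b4 : ℕ) : ℕ :=
  Nat.add (Nat.mul 16 (Nat.add (Nat.mul 3 (Nat.add (Nat.mul 3 (Nat.add (Nat.mul 3 x) y)) u)) w))
    (Nat.add (Nat.add b1 (Nat.mul 2 b2)) (Nat.add (Nat.mul 4 b3) (Nat.mul 8 b4)))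

def mqA (mt : ℕ → ℕ) (O p q r s cx cy cu cw cz b1 b2 b3 b4 e : ℕ) : ℕ :=
  mk' O p q r s (mt (mixA cx cy cu cw b1 b2 b3 b4)) (kind (rc cx cy) (rc cx cz) e)

theorem mgA_sum (mt : ℕ → ℕ) (O T p q r s : ℕ) (hT : ∀ i < 1296, mt i ≤ T) (hq : T * q ≤ O)
    (hs : T * s ≤ O) (c : V → ℕ) (hc : ∀ x, c x < 3) (e : V → V → V → ℕ)
    (e1 : ∀ x y z, e x y z ≤ 1) :
    O * Fintype.card V ^ 5 ≤
      ∑ x : Fin 5 → V, mg (mqA mt O p q r s) c e (x 0) (x 1) (x 2) (x 3) (x 4) +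
        T * (Fintype.card V ^ 2 * ∑ x, ∑ y, dfc p q r s c e x y) := by
  rw [sum_five]
  have h : ∀ x y u w : V, O * Fintype.card V ≤
      ∑ z, mg (mqA mt O p q r s) c e x y u w z + T * dfc p q r s c e x y := by
    intro x y u w
    set i := mixA (c x) (c y) (c u) (c w) (e x y u) (e x y w) (e x u w)
      (e y u w) with hi
    have hi432 : i < 1296 := by
      have a0 := hc x
      have a1 := hc y
      have a2 := hc u
      have a3 := hc w
      have a4 := e1 x y u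
      have a5 := e1 x y w
      have a6 := e1 x u w
      have a7 := e1 y u w
      show 16 * (3 * (3 * (3 * c x + c y) + c u) + c w) +
        ((e x y u + 2 * e x y w) + (4 * e x u w + 8 * e y u w)) < 1296
      omega
    have ht := hT i hi432
    have hq' : mt i * q ≤ O := (Nat.mul_le_mul_right q ht).trans hq
    have hs' : mt i * s ≤ O := (Nat.mul_le_mul_right s ht).trans hs
    have h1 : ∀ z, ((mg (mqA mt O p q r s) c e x y u w z : ℕ) : ℤ) =
        O + mt i * facZ p q r s (kind (rc (c x) (c y)) (rc (c x) (c z)) (e x y z)) := fun z =>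
      mk'_cast O p q r s (mt i) hq' hs' _
    have h2 := fac_sum p q r s c hc e e1 x y
    have h3 : ((∑ z, mg (mqA mt O p q r s) c e x y u w z : ℕ) : ℤ) = O * Fintype.card V +
        mt i * ∑ z, facZ p q r s (kind (rc (c x) (c y)) (rc (c x) (c z)) (e x y z)) := by
      push_cast
      simp only [h1, sum_add_distrib, sum_const, card_univ, nsmul_eq_mul, mul_sum]
      ring
    have h4 : (0 : ℤ) ≤ mt i := Int.natCast_nonneg _
    have h5 : ((mt i : ℕ) : ℤ) ≤ T := by exact_mod_cast ht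
    have h6 : (0 : ℤ) ≤ ((dfc p q r s c e x y : ℕ) : ℤ) := Int.natCast_nonneg _
    have h7 : ((O * Fintype.card V : ℕ) : ℤ) ≤
        ((∑ z, mg (mqA mt O p q r s) c e x y u w z + T * dfc p q r s c e x y : ℕ) : ℤ) := by
      rw [Nat.cast_add, h3]
      push_cast
      have h8 := mul_le_mul_of_nonneg_left h2 h4
      have h9 := mul_le_mul_of_nonneg_right h5 h6
      linarith
    exact_mod_cast h7
  calc O * Fintype.card V ^ 5
      = ∑ _x : V, ∑ _y : V, ∑ _u : V, ∑ _w : V, O * Fintype.card V := by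
        simp only [sum_const, card_univ, smul_eq_mul]; ring
    _ ≤ ∑ x : V, ∑ y : V, ∑ u : V, ∑ w : V,
        (∑ z, mg (mqA mt O p q r s) c e x y u w z + T * dfc p q r s c e x y) :=
        sum_le_sum fun x _ => sum_le_sum fun y _ => sum_le_sum fun u _ => sum_le_sum fun w _ =>
          h x y u w
    _ = _ := by
        simp only [sum_add_distrib, sum_const, card_univ, smul_eq_mul, mul_sum]
        congr 1
        refine sum_congr rfl fun x _ => sum_congr rfl fun y _ => ?_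
        ring

/-- The pointwise inequality. -/
theorem keyA (hG : GoodA val rows OFF) (ex : ℕ → ℕ → ℕ → ℕ) (g W K : ℕ)
    (ex1 : ∀ a b d, a < 3 → b < 3 → d < 3 → ex a b d = ex b a d)
    (ex2 : ∀ a b d, a < 3 → b < 3 → d < 3 → ex a b d = ex a d b)
    (mv : ℕ → ℕ → ℕ → ℕ → ℕ → ℕ → ℕ → ℕ → ℕ → ℕ → ℕ) (hmv : symOK mv = true)
    (hchk : ∀ C0 C1 C2 C3 C4 : ℕ, C0 ≤ C1 → C1 ≤ C2 → C2 ≤ C3 → C3 ≤ C4 → C4 < 3 →
      chkA ex g val mv W K C0 C1 C2 C3 C4 = true)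
    (c : V → ℕ) (hc : ∀ x, c x < 3) (e : V → V → V → ℕ) (e1 : ∀ x y z, e x y z ≤ 1)
    (s1 : ∀ x y z, e x y z = e y x z) (s2 : ∀ x y z, e x y z = e x z y)
    (hK : ∀ x y z w, e x y z = 0 ∨ e x y w = 0 ∨ e x z w = 0 ∨ e y z w = 0)
    (x0 x1 x2 x3 x4 : V) :
    S60 (v3A val c e) x0 x1 x2 x3 x4 + S15 (v1A val c e) x0 x1 x2 x3 x4 +
      9 * W * S10 e x0 x1 x2 x3 x4 + S30 (mg mv c e) x0 x1 x2 x3 x4 ≤
      K + g * S10 (bd ex c e) x0 x1 x2 x3 x4 := by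
  have hv3 : ∀ a b d u v, v3A val c e a b d u v = v3A val c e a b d v u := fun a b d u v =>
    hG.comm (tyA_lt (hc _) (hc _) (hc _) (e1 _ _ _))
      (f3A_lt (hc _) (e1 _ _ _) (e1 _ _ _) (e1 _ _ _))
      (f3A_lt (hc _) (e1 _ _ _) (e1 _ _ _) (e1 _ _ _))
  have hk1 : ∀ a y z u w, v1A val c e a y z u w = v1A val c e a z y u w := fun a y z u w => by
    unfold v1A w1A
    rw [f1A_comm (c y) (c z), s2 a y z]
  have hk2 : ∀ a y z u w, v1A val c e a y z u w = v1A val c e a y z w u := fun a y z u w => by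
    unfold v1A w1A
    rw [f1A_comm (c u) (c w), s2 a u w]
  have hk3 : ∀ a y z u w, v1A val c e a y z u w = v1A val c e a u w y z := fun a y z u w =>
    hG.comm (t1A_lt (hc _)) (f1A_lt (hc _) (hc _) (e1 _ _ _)) (f1A_lt (hc _) (hc _) (e1 _ _ _))
  have hm1 : ∀ x y u w z, mg mv c e x y u w z = mg mv c e y x u w z := fun x y u w z => by
    unfold mg
    rw [(symOK_elim hmv (hc x) (hc y) (hc u) (hc w) (hc z) (e1 x y u) (e1 x y w) (e1 x u w)
      (e1 y u w) (e1 x y z)).1, s1 x y u, s1 x y w, s1 x y z]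
  have hm2 : ∀ x y u w z, mg mv c e x y u w z = mg mv c e x y w u z := fun x y u w z => by
    unfold mg
    rw [(symOK_elim hmv (hc x) (hc y) (hc u) (hc w) (hc z) (e1 x y u) (e1 x y w) (e1 x u w)
      (e1 y u w) (e1 x y z)).2, s2 x u w, s2 y u w]
  have b1 : ∀ x y z, bd ex c e x y z = bd ex c e y x z := fun x y z => by
    unfold bd
    rw [ex1 _ _ _ (hc x) (hc y) (hc z), s1]
  have b2' : ∀ x y z, bd ex c e x y z = bd ex c e x z y := fun x y z => by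
    unfold bd
    rw [ex2 _ _ _ (hc x) (hc y) (hc z), s2]
  clear ex1 ex2
  revert x0 x1 x2 x3 x4
  apply wlog5 c
  · intro x0 x1 x2 x3 x4 h
    rwa [S60_sw0 _ hv3, S15_sw0 _ hk1 hk2 hk3, S10_sw0 _ s1 s2, S30_sw0 _ hm1 hm2,
      S10_sw0 _ b1 b2'] at h
  · intro x0 x1 x2 x3 x4 h
    rwa [S60_sw1 _ hv3, S15_sw1 _ hk1 hk2 hk3, S10_sw1 _ s1 s2, S30_sw1 _ hm1 hm2,
      S10_sw1 _ b1 b2'] at h
  · intro x0 x1 x2 x3 x4 h
    rwa [S60_sw2 _ hv3, S15_sw2 _ hk1 hk2 hk3, S10_sw2 _ s1 s2, S30_sw2 _ hm1 hm2,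
      S10_sw2 _ b1 b2'] at h
  · intro x0 x1 x2 x3 x4 h
    rwa [S60_sw3 _ hv3, S15_sw3 _ hk1 hk2 hk3, S10_sw3 _ s1 s2, S30_sw3 _ hm1 hm2,
      S10_sw3 _ b1 b2'] at h
  · intro x0 x1 x2 x3 x4 c01 c12 c23 c34
    rw [← F10A_eq val W c e s1 s2, ← M30_eq mv c e s1 s2]
    have k4_of : ∀ x y z w : V, ¬ k4 (e x y z) (e x y w) (e x z w) (e y z w) = true := by
      intro x y z w h
      unfold k4 at h
      have h1 := Nat.eq_of_beq_eq_true h
      have h2 : (e x y z * e x y w) * (e x z w * e y z w) = 1 := h1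
      rcases hK x y z w with h3 | h3 | h3 | h3 <;> rw [h3] at h2 <;> simp at h2
    exact chkA_sound ex g val mv W K _ _ _ _ _ _ _ _ _ _ _ _ _ _ _
      (hchk _ _ _ _ _ c01 c12 c23 c34 (hc x4))
      (e1 _ _ _) (e1 _ _ _) (e1 _ _ _) (e1 _ _ _) (e1 _ _ _) (e1 _ _ _) (e1 _ _ _) (e1 _ _ _)
      (e1 _ _ _) (e1 _ _ _)
      (k4_of _ _ _ _) (k4_of _ _ _ _) (k4_of _ _ _ _) (k4_of _ _ _ _) (k4_of _ _ _ _)

/-- The main inequality. -/
theorem mainA (hG : GoodA val rows OFF) (ex : ℕ → ℕ → ℕ → ℕ) (g W : ℕ)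
    (ex1 : ∀ a b d, a < 3 → b < 3 → d < 3 → ex a b d = ex b a d)
    (ex2 : ∀ a b d, a < 3 → b < 3 → d < 3 → ex a b d = ex a d b)
    (mt : ℕ → ℕ) (O T p q r s : ℕ)
    (hT : ∀ i < 1296, mt i ≤ T) (hq : T * q ≤ O) (hs : T * s ≤ O)
    (hmv : symOK (mqA mt O p q r s) = true)
    (hchk : ∀ C0 C1 C2 C3 C4 : ℕ, C0 ≤ C1 → C1 ≤ C2 → C2 ≤ C3 → C3 ≤ C4 → C4 < 3 →
      chkA ex g val (mqA mt O p q r s) W (50 * W + 75 * OFF + 30 * O) C0 C1 C2 C3 C4 = true)
    (c : V → ℕ) (hc : ∀ x, c x < 3) (e : V → V → V → ℕ) (e1 : ∀ x y z, e x y z ≤ 1)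
    (s1 : ∀ x y z, e x y z = e y x z) (s2 : ∀ x y z, e x y z = e x z y)
    (hK : ∀ x y z w, e x y z = 0 ∨ e x y w = 0 ∨ e x z w = 0 ∨ e y z w = 0) :
    90 * W * (Fintype.card V ^ 2 * ∑ a, ∑ b, ∑ d, e a b d) ≤
      50 * W * Fintype.card V ^ 5 +
        30 * (T * (Fintype.card V ^ 2 * ∑ x, ∑ y, dfc p q r s c e x y)) +
        10 * (g * (Fintype.card V ^ 2 * ∑ a, ∑ b, ∑ d, bd ex c e a b d)) := by
  have hsum : ∑ x : Fin 5 → V, (S60 (v3A val c e) (x 0) (x 1) (x 2) (x 3) (x 4) +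
      S15 (v1A val c e) (x 0) (x 1) (x 2) (x 3) (x 4) + 9 * W * S10 e (x 0) (x 1) (x 2) (x 3) (x 4) +
      S30 (mg (mqA mt O p q r s) c e) (x 0) (x 1) (x 2) (x 3) (x 4)) ≤
      ∑ x : Fin 5 → V, ((50 * W + 75 * OFF + 30 * O) +
        g * S10 (bd ex c e) (x 0) (x 1) (x 2) (x 3) (x 4)) :=
    sum_le_sum fun x _ => keyA hG ex g W _ ex1 ex2 _ hmv hchk c hc e e1 s1 s2 hK _ _ _ _ _
  rw [sum_add_distrib, sum_add_distrib, sum_add_distrib, sum_add_distrib, ← mul_sum, ← mul_sum,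
    sum_S60, sum_S15, sum_S10, sum_S10, sum_S30, e_sum, e_sum, sum_const, card_univ, smul_eq_mul,
    Fintype.card_fun, Fintype.card_fin] at hsum
  have h3 := v3A_sum hG c hc e e1
  have h1 := v1A_sum hG c hc e e1
  have hm := mgA_sum mt O T p q r s hT hq hs c hc e e1
  nlinarith [hsum, h3, h1, hm]

end Pool.Agent.R81.TC
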