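import Pool.Agent.R81.TC.Tool2

set_option autoImplicit false

/-!
The inequality obtained from a certificate for two classes with a multiplier for their sizes and a
term counting the edges of excluded kinds.
-/

namespace Pool.Agent.R81.TC
open Finset Pool.Agent.Y439.Col

/-- The multiplier for two vertices with classes `cu`, `cw` (class 0 or not). -/
def sizeU (n0 p1 n2 O m cu cw : ℕ) : ℕ :=
  match Nat.beq cu 0 with
  | true => (match Nat.beq cw 0 with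
    | true => Nat.sub O (Nat.mul m n0)
    | false => Nat.add O (Nat.mul m p1))
  | false => (match Nat.beq cw 0 with
    | true => Nat.add O (Nat.mul m p1)
    | false => Nat.sub O (Nat.mul m n2))

def mqB (m3 : ℕ → ℕ) (O n0 p1 n2 cx cy cu cw cz _b1 _b2 _b3 _b4 e : ℕ) : ℕ :=
  sizeU n0 p1 n2 O (m3 (Nat.add (Nat.mul 2 (Nat.add (Nat.add cx cy) cz)) e)) cu cw

theorem sizeU_eq (n0 p1 n2 O m cu cw : ℕ) : sizeU n0 p1 n2 O m cu cw =
    if cu = 0 then (if cw = 0 then O - m * n0 else O + m * p1)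
    else (if cw = 0 then O + m * p1 else O - m * n2) := by
  unfold sizeU
  rcases Nat.eq_zero_or_pos cu with h1 | h1
  · subst h1
    rcases Nat.eq_zero_or_pos cw with h2 | h2
    · subst h2; rfl
    · have e2 : Nat.beq cw 0 = false := by
        cases cw with
        | zero => omega
        | succ k => rfl
      rw [e2, if_pos rfl, if_neg (by omega)]
      rfl
  · have e1 : Nat.beq cu 0 = false := by
      cases cu with
      | zero => omega
      | succ k => rfl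
    rw [e1, if_neg (by omega)]
    rcases Nat.eq_zero_or_pos cw with h2 | h2
    · subst h2; rfl
    · have e2 : Nat.beq cw 0 = false := by
        cases cw with
        | zero => omega
        | succ k => rfl
      rw [e2, if_neg (by omega)]
      rfl

variable {V : Type*} [Fintype V]

theorem two_sum (c : V → ℕ) (P Q : ℕ) : (∑ w, if c w = 0 then P else Q) =
    (univ.filter fun w => c w = 0).card * P + (univ.filter fun w => ¬ c w = 0).card * Q := by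
  rw [sum_ite, sum_const, sum_const, smul_eq_mul, smul_eq_mul]

theorem sizeU_sum (c : V → ℕ) (n0 p1 n2 O m : ℕ) (h0 : m * n0 ≤ O) (h2 : m * n2 ≤ O)
    (hsz : n0 * (univ.filter fun w => c w = 0).card ^ 2 +
      n2 * (univ.filter fun w => ¬ c w = 0).card ^ 2 ≤
      2 * p1 * ((univ.filter fun w => c w = 0).card * (univ.filter fun w => ¬ c w = 0).card)) :
    O * Fintype.card V ^ 2 ≤ ∑ u, ∑ w, sizeU n0 p1 n2 O m (c u) (c w) := by
  have hn : (univ.filter fun w => c w = 0).card + (univ.filter fun w => ¬ c w = 0).card =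
      Fintype.card V := by
    rw [card_filter_add_card_filter_not, card_univ]
  set a := (univ.filter fun w => c w = 0).card with ha
  set b := (univ.filter fun w => ¬ c w = 0).card with hb
  have e : ∑ u, ∑ w, sizeU n0 p1 n2 O m (c u) (c w) =
      a * (a * (O - m * n0) + b * (O + m * p1)) + b * (a * (O + m * p1) + b * (O - m * n2)) := by
    rw [← two_sum c (a * (O - m * n0) + b * (O + m * p1)) (a * (O + m * p1) + b * (O - m * n2))]
    refine sum_congr rfl fun u _ => ?_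
    simp only [sizeU_eq]
    split_ifs with h
    · rw [two_sum]
    · rw [two_sum]
  rw [e, ← hn]
  obtain ⟨X, hX⟩ := Nat.exists_eq_add_of_le h0
  obtain ⟨Y, hY⟩ := Nat.exists_eq_add_of_le h2
  have e1 : O - m * n0 = X := by omega
  have e2 : O - m * n2 = Y := by omega
  rw [e1, e2]
  have h := Nat.mul_le_mul_left m hsz
  have hX' : a ^ 2 * O = a ^ 2 * (m * n0 + X) := by rw [← hX]
  have hY' : b ^ 2 * O = b ^ 2 * (m * n2 + Y) := by rw [← hY]
  nlinarith [h, hX', hY']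

theorem mgB_sum (m3 : ℕ → ℕ) (O n0 p1 n2 : ℕ) (h0 : ∀ i < 8, m3 i * n0 ≤ O)
    (h2 : ∀ i < 8, m3 i * n2 ≤ O) (c : V → ℕ) (hc : ∀ x, c x < 2)
    (hsz : n0 * (univ.filter fun w => c w = 0).card ^ 2 +
      n2 * (univ.filter fun w => ¬ c w = 0).card ^ 2 ≤
      2 * p1 * ((univ.filter fun w => c w = 0).card * (univ.filter fun w => ¬ c w = 0).card))
    (e : V → V → V → ℕ) (e1 : ∀ x y z, e x y z ≤ 1) :
    O * Fintype.card V ^ 5 ≤
      ∑ x : Fin 5 → V, mg (mqB m3 O n0 p1 n2) c e (x 0) (x 1) (x 2) (x 3) (x 4) := by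
  rw [sum_five]
  have hcomm : ∑ x, ∑ y, ∑ u, ∑ w, ∑ z, mg (mqB m3 O n0 p1 n2) c e x y u w z =
      ∑ x, ∑ y, ∑ z, ∑ u, ∑ w, mg (mqB m3 O n0 p1 n2) c e x y u w z := by
    refine sum_congr rfl fun x _ => sum_congr rfl fun y _ => ?_
    rw [sum_comm]
    rw [show (∑ y_1, ∑ x_1, ∑ z, mg (mqB m3 O n0 p1 n2) c e x y x_1 y_1 z) =
      ∑ y_1, ∑ z, ∑ x_1, mg (mqB m3 O n0 p1 n2) c e x y x_1 y_1 z from
        sum_congr rfl fun w _ => sum_comm]
    rw [sum_comm]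
    exact sum_congr rfl fun z _ => sum_comm
  rw [hcomm]
  have h : ∀ x y z : V, O * Fintype.card V ^ 2 ≤
      ∑ u, ∑ w, mg (mqB m3 O n0 p1 n2) c e x y u w z := by
    intro x y z
    have hi : 2 * (c x + c y + c z) + e x y z < 8 := by
      have a1 := hc x
      have a2 := hc y
      have a3 := hc z
      have a4 := e1 x y z
      omega
    exact sizeU_sum c n0 p1 n2 O (m3 (2 * (c x + c y + c z) + e x y z)) (h0 _ hi) (h2 _ hi) hsz
  calc O * Fintype.card V ^ 5 = ∑ _x : V, ∑ _y : V, ∑ _z : V, O * Fintype.card V ^ 2 := by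
        simp only [sum_const, card_univ, smul_eq_mul]; ring
    _ ≤ _ := sum_le_sum fun x _ => sum_le_sum fun y _ => sum_le_sum fun z _ => h x y z

variable {val : ℕ → ℕ → ℕ → ℕ} {rows : ℕ → List (List ℤ)} {OFF : ℕ}

/-- The pointwise inequality. -/
theorem keyB (hG : GoodA val rows OFF) (ex : ℕ → ℕ → ℕ → ℕ) (g W K : ℕ)
    (ex1 : ∀ a b d, a < 3 → b < 3 → d < 3 → ex a b d = ex b a d)
    (ex2 : ∀ a b d, a < 3 → b < 3 → d < 3 → ex a b d = ex a d b)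
    (mv : ℕ → ℕ → ℕ → ℕ → ℕ → ℕ → ℕ → ℕ → ℕ → ℕ → ℕ) (hmv : symOK mv = true)
    (hchk : ∀ C0 C1 C2 C3 C4 : ℕ, C0 ≤ C1 → C1 ≤ C2 → C2 ≤ C3 → C3 ≤ C4 → C4 < 2 →
      chkA ex g val mv W K C0 C1 C2 C3 C4 = true)
    (c : V → ℕ) (hc2 : ∀ x, c x < 2) (e : V → V → V → ℕ) (e1 : ∀ x y z, e x y z ≤ 1)
    (s1 : ∀ x y z, e x y z = e y x z) (s2 : ∀ x y z, e x y z = e x z y)
    (hK : ∀ x y z w, e x y z = 0 ∨ e x y w = 0 ∨ e x z w = 0 ∨ e y z w = 0)
    (x0 x1 x2 x3 x4 : V) :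
    S60 (v3A val c e) x0 x1 x2 x3 x4 + S15 (v1A val c e) x0 x1 x2 x3 x4 +
      9 * W * S10 e x0 x1 x2 x3 x4 + S30 (mg mv c e) x0 x1 x2 x3 x4 ≤
      K + g * S10 (bd ex c e) x0 x1 x2 x3 x4 := by
  have hc : ∀ x, c x < 3 := fun x => (hc2 x).trans (by norm_num)
  have hv3 : ∀ a b d u v, v3A val c e a b d u v = v3A val c e a b d v u := fun a b d u v =>
    hG.comm (tyA_lt (hc _) (hc _) (hc _) (e1 _ _ _))
      (f3A_lt (hc _) (e1 _ _ _) (e1 _ _ _) (e1 _ _ _))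
      (f3A_lt (hc _) (e1 _ _ _) (e1 _ _ _) (e1 _ _ _))
  have hk1 : ∀ a y z u w, v1A val c e a y z u w = v1A val c e a z y u w := fun a y z u w => by
    unfold v1A w1A
    rw [f1A_comm (c y) (c z), s2 a y z]
  have hk2 : ∀ a y z u w, v1A val c e a y z u w = v1A val c e a y z w u := fun a y z u w => by
    unfold v1A w1A
    rw [f1A_comm (c u) (c w), s2 a u w]
  have hk3 : ∀ a y z u w, v1A val c e a y z u w = v1A val c e a u w y z := fun a y z u w =>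
    hG.comm (t1A_lt (hc _)) (f1A_lt (hc _) (hc _) (e1 _ _ _)) (f1A_lt (hc _) (hc _) (e1 _ _ _))
  have hm1 : ∀ x y u w z, mg mv c e x y u w z = mg mv c e y x u w z := fun x y u w z => by
    unfold mg
    rw [(symOK_elim hmv (hc x) (hc y) (hc u) (hc w) (hc z) (e1 x y u) (e1 x y w) (e1 x u w)
      (e1 y u w) (e1 x y z)).1, s1 x y u, s1 x y w, s1 x y z]
  have hm2 : ∀ x y u w z, mg mv c e x y u w z = mg mv c e x y w u z := fun x y u w z => by
    unfold mg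
    rw [(symOK_elim hmv (hc x) (hc y) (hc u) (hc w) (hc z) (e1 x y u) (e1 x y w) (e1 x u w)
      (e1 y u w) (e1 x y z)).2, s2 x u w, s2 y u w]
  have b1 : ∀ x y z, bd ex c e x y z = bd ex c e y x z := fun x y z => by
    unfold bd
    rw [ex1 _ _ _ (hc x) (hc y) (hc z), s1]
  have b2' : ∀ x y z, bd ex c e x y z = bd ex c e x z y := fun x y z => by
    unfold bd
    rw [ex2 _ _ _ (hc x) (hc y) (hc z), s2]
  clear ex1 ex2
  revert x0 x1 x2 x3 x4
  apply wlog5 c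
  · intro x0 x1 x2 x3 x4 h
    rwa [S60_sw0 _ hv3, S15_sw0 _ hk1 hk2 hk3, S10_sw0 _ s1 s2, S30_sw0 _ hm1 hm2,
      S10_sw0 _ b1 b2'] at h
  · intro x0 x1 x2 x3 x4 h
    rwa [S60_sw1 _ hv3, S15_sw1 _ hk1 hk2 hk3, S10_sw1 _ s1 s2, S30_sw1 _ hm1 hm2,
      S10_sw1 _ b1 b2'] at h
  · intro x0 x1 x2 x3 x4 h
    rwa [S60_sw2 _ hv3, S15_sw2 _ hk1 hk2 hk3, S10_sw2 _ s1 s2, S30_sw2 _ hm1 hm2,
      S10_sw2 _ b1 b2'] at h
  · intro x0 x1 x2 x3 x4 h
    rwa [S60_sw3 _ hv3, S15_sw3 _ hk1 hk2 hk3, S10_sw3 _ s1 s2, S30_sw3 _ hm1 hm2,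
      S10_sw3 _ b1 b2'] at h
  · intro x0 x1 x2 x3 x4 c01 c12 c23 c34
    rw [← F10A_eq val W c e s1 s2, ← M30_eq mv c e s1 s2]
    have k4_of : ∀ x y z w : V, ¬ k4 (e x y z) (e x y w) (e x z w) (e y z w) = true := by
      intro x y z w h
      unfold k4 at h
      have h1 := Nat.eq_of_beq_eq_true h
      have h2 : (e x y z * e x y w) * (e x z w * e y z w) = 1 := h1
      rcases hK x y z w with h3 | h3 | h3 | h3 <;> rw [h3] at h2 <;> simp at h2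
    exact chkA_sound ex g val mv W K _ _ _ _ _ _ _ _ _ _ _ _ _ _ _
      (hchk _ _ _ _ _ c01 c12 c23 c34 (hc2 x4))
      (e1 _ _ _) (e1 _ _ _) (e1 _ _ _) (e1 _ _ _) (e1 _ _ _) (e1 _ _ _) (e1 _ _ _) (e1 _ _ _)
      (e1 _ _ _) (e1 _ _ _)
      (k4_of _ _ _ _) (k4_of _ _ _ _) (k4_of _ _ _ _) (k4_of _ _ _ _) (k4_of _ _ _ _)

/-- The main inequality. -/
theorem mainB (hG : GoodA val rows OFF) (ex : ℕ → ℕ → ℕ → ℕ) (g W K0 : ℕ)
    (ex1 : ∀ a b d, a < 3 → b < 3 → d < 3 → ex a b d = ex b a d)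
    (ex2 : ∀ a b d, a < 3 → b < 3 → d < 3 → ex a b d = ex a d b)
    (m3 : ℕ → ℕ) (O n0 p1 n2 : ℕ)
    (h0 : ∀ i < 8, m3 i * n0 ≤ O) (h2 : ∀ i < 8, m3 i * n2 ≤ O)
    (hmv : symOK (mqB m3 O n0 p1 n2) = true)
    (hchk : ∀ C0 C1 C2 C3 C4 : ℕ, C0 ≤ C1 → C1 ≤ C2 → C2 ≤ C3 → C3 ≤ C4 → C4 < 2 →
      chkA ex g val (mqB m3 O n0 p1 n2) W (K0 + 75 * OFF + 30 * O) C0 C1 C2 C3 C4 = true)
    (c : V → ℕ) (hc : ∀ x, c x < 2)
    (hsz : n0 * (univ.filter fun w => c w = 0).card ^ 2 +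
      n2 * (univ.filter fun w => ¬ c w = 0).card ^ 2 ≤
      2 * p1 * ((univ.filter fun w => c w = 0).card * (univ.filter fun w => ¬ c w = 0).card))
    (e : V → V → V → ℕ) (e1 : ∀ x y z, e x y z ≤ 1)
    (s1 : ∀ x y z, e x y z = e y x z) (s2 : ∀ x y z, e x y z = e x z y)
    (hK : ∀ x y z w, e x y z = 0 ∨ e x y w = 0 ∨ e x z w = 0 ∨ e y z w = 0) :
    90 * W * (Fintype.card V ^ 2 * ∑ a, ∑ b, ∑ d, e a b d) ≤
      K0 * Fintype.card V ^ 5 +
        10 * (g * (Fintype.card V ^ 2 * ∑ a, ∑ b, ∑ d, bd ex c e a b d)) := by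
  have hsum : ∑ x : Fin 5 → V, (S60 (v3A val c e) (x 0) (x 1) (x 2) (x 3) (x 4) +
      S15 (v1A val c e) (x 0) (x 1) (x 2) (x 3) (x 4) + 9 * W * S10 e (x 0) (x 1) (x 2) (x 3) (x 4) +
      S30 (mg (mqB m3 O n0 p1 n2) c e) (x 0) (x 1) (x 2) (x 3) (x 4)) ≤
      ∑ x : Fin 5 → V, ((K0 + 75 * OFF + 30 * O) +
        g * S10 (bd ex c e) (x 0) (x 1) (x 2) (x 3) (x 4)) :=
    sum_le_sum fun x _ => keyB hG ex g W _ ex1 ex2 _ hmv hchk c hc e e1 s1 s2 hK _ _ _ _ _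
  rw [sum_add_distrib, sum_add_distrib, sum_add_distrib, sum_add_distrib, ← mul_sum, ← mul_sum,
    sum_S60, sum_S15, sum_S10, sum_S10, sum_S30, e_sum, e_sum, sum_const, card_univ, smul_eq_mul,
    Fintype.card_fun, Fintype.card_fin] at hsum
  have hc3 : ∀ x, c x < 3 := fun x => (hc x).trans (by norm_num)
  have h3 := v3A_sum hG c hc3 e e1
  have h1 := v1A_sum hG c hc3 e e1
  have hm := mgB_sum m3 O n0 p1 n2 h0 h2 c hc hsz e e1
  nlinarith [hsum, h3, h1, hm]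

/-- The check for all sorted colourings with two colours and given first three colours. -/
def chkAt2 (ex : ℕ → ℕ → ℕ → ℕ) (g : ℕ) (val : ℕ → ℕ → ℕ → ℕ)
    (mv : ℕ → ℕ → ℕ → ℕ → ℕ → ℕ → ℕ → ℕ → ℕ → ℕ → ℕ) (W K C0 C1 C2 : ℕ) : Bool :=
  allb 2 fun C3 => !(Nat.ble C2 C3) ||
    (allb 2 fun C4 => !(Nat.ble C3 C4) || chkA ex g val mv W K C0 C1 C2 C3 C4)

theorem chkAt2_elim {ex : ℕ → ℕ → ℕ → ℕ} {g : ℕ} {val : ℕ → ℕ → ℕ → ℕ}
    {mv : ℕ → ℕ → ℕ → ℕ → ℕ → ℕ → ℕ → ℕ → ℕ → ℕ → ℕ} {W K C0 C1 C2 C3 C4 : ℕ}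
    (h : chkAt2 ex g val mv W K C0 C1 C2 = true) (h23 : C2 ≤ C3) (h34 : C3 ≤ C4) (h4 : C4 < 2) :
    chkA ex g val mv W K C0 C1 C2 C3 C4 = true := by
  have g2 := or_elim_le (allb_elim h C3 (by omega)) h23
  exact or_elim_le (allb_elim g2 C4 (by omega)) h34

end Pool.Agent.R81.TC
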