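import Pool.Agent.R81.TC.Tool2

set_option autoImplicit false

/-!
The inequality obtained from a certificate for three classes with multipliers for their sizes and a
term counting the edges of excluded kinds.
-/

namespace Pool.Agent.R81.TC
open Finset Pool.Agent.Y439.Col

/-- The multiplier: an entry of a table for the four vertices and the class of the fifth. -/
def mqC (tb : ℕ → ℕ) (cx cy cu cw cz b1 b2 b3 b4 _e : ℕ) : ℕ :=
  tb (Nat.add (Nat.mul 3 (mixA cx cy cu cw b1 b2 b3 b4)) cz)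

/-- 1 if the multiset of the colours has one of the numbers `k`, `l`, `m`, else 0. -/
def exT (k l m a b d : ℕ) : ℕ :=
  match (Nat.beq (key a b d) k || (Nat.beq (key a b d) l || Nat.beq (key a b d) m)) with
  | true => 1
  | false => 0

theorem exT_sw1 (k l m a b d : ℕ) : exT k l m a b d = exT k l m b a d := by
  unfold exT
  rw [key_sw1]

theorem exT_sw2 (k l m a b d : ℕ) : exT k l m a b d = exT k l m a d b := by
  unfold exT
  rw [key_sw2]

theorem convex_sum {p q O t0 t1 t2 a b c n : ℕ} (hq : 0 < q) (hn : a + b + c = n)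
    (h0 : (3 * p + q) * O ≤ p * (t0 + t1 + t2) + q * t0)
    (h1 : (3 * p + q) * O ≤ p * (t0 + t1 + t2) + q * t1)
    (h2 : (3 * p + q) * O ≤ p * (t0 + t1 + t2) + q * t2)
    (ha : p * n ≤ (3 * p + q) * a) (hb : p * n ≤ (3 * p + q) * b)
    (hc : p * n ≤ (3 * p + q) * c) : O * n ≤ a * t0 + b * t1 + c * t2 := by
  subst hn
  have hpos : 0 < q * (3 * p + q) := by positivity
  refine Nat.le_of_mul_le_mul_left ?_ hpos
  zify at *
  have g0 := mul_nonneg (sub_nonneg.2 ha) (sub_nonneg.2 h0)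
  have g1 := mul_nonneg (sub_nonneg.2 hb) (sub_nonneg.2 h1)
  have g2 := mul_nonneg (sub_nonneg.2 hc) (sub_nonneg.2 h2)
  nlinarith [g0, g1, g2]

variable {V : Type*} [Fintype V]

theorem three_sum (c : V → ℕ) (hc : ∀ x, c x < 3) (f : ℕ → ℕ) : ∑ z, f (c z) =
    (univ.filter fun z => c z = 0).card * f 0 + (univ.filter fun z => c z = 1).card * f 1 +
      (univ.filter fun z => c z = 2).card * f 2 := by
  have h : ∀ z, f (c z) = (if c z = 0 then f 0 else 0) + (if c z = 1 then f 1 else 0) +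
      (if c z = 2 then f 2 else 0) := by
    intro z
    have h3 := hc z
    interval_cases h : c z <;> simp
  simp only [h, sum_add_distrib]
  simp only [← sum_filter, sum_const, smul_eq_mul]

theorem three_card (c : V → ℕ) (hc : ∀ x, c x < 3) : (univ.filter fun z => c z = 0).card +
    (univ.filter fun z => c z = 1).card + (univ.filter fun z => c z = 2).card =
      Fintype.card V := by
  have h := three_sum c hc (fun _ => 1)
  simp only [mul_one, sum_const, card_univ, smul_eq_mul] at h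
  exact h.symm

/-- The check of the table of multipliers. -/
def tbOK (tb : ℕ → ℕ) (p q O : ℕ) : Bool :=
  allb 1296 fun i => allb 3 fun k => Nat.ble (Nat.mul (Nat.add (Nat.mul 3 p) q) O)
    (Nat.add (Nat.mul p (Nat.add (Nat.add (tb (Nat.mul 3 i)) (tb (Nat.add (Nat.mul 3 i) 1)))
      (tb (Nat.add (Nat.mul 3 i) 2)))) (Nat.mul q (tb (Nat.add (Nat.mul 3 i) k))))

theorem tbOK_elim {tb : ℕ → ℕ} {p q O : ℕ} (h : tbOK tb p q O = true) (i k : ℕ) (hi : i < 1296)
    (hk : k < 3) : (3 * p + q) * O ≤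
      p * (tb (3 * i) + tb (3 * i + 1) + tb (3 * i + 2)) + q * tb (3 * i + k) :=
  Nat.le_of_ble_eq_true (allb_elim (allb_elim h i hi) k hk)

theorem mgC_sum (tb : ℕ → ℕ) (p q O : ℕ) (hq : 0 < q) (htb : tbOK tb p q O = true) (c : V → ℕ)
    (hc : ∀ x, c x < 3)
    (hs : ∀ k < 3, p * Fintype.card V ≤ (3 * p + q) * (univ.filter fun z => c z = k).card)
    (e : V → V → V → ℕ) (e1 : ∀ x y z, e x y z ≤ 1) :
    O * Fintype.card V ^ 5 ≤
      ∑ x : Fin 5 → V, mg (mqC tb) c e (x 0) (x 1) (x 2) (x 3) (x 4) := by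
  rw [sum_five]
  have h : ∀ x y u w : V, O * Fintype.card V ≤ ∑ z, mg (mqC tb) c e x y u w z := by
    intro x y u w
    set i := mixA (c x) (c y) (c u) (c w) (e x y u) (e x y w) (e x u w) (e y u w) with hi
    have hi432 : i < 1296 := by
      have a0 := hc x
      have a1 := hc y
      have a2 := hc u
      have a3 := hc w
      have a4 := e1 x y u
      have a5 := e1 x y w
      have a6 := e1 x u w
      have a7 := e1 y u w
      show 16 * (3 * (3 * (3 * c x + c y) + c u) + c w) +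
        ((e x y u + 2 * e x y w) + (4 * e x u w + 8 * e y u w)) < 1296
      omega
    have h1 : ∑ z, mg (mqC tb) c e x y u w z = ∑ z, (fun k => tb (3 * i + k)) (c z) := rfl
    rw [h1, three_sum c hc (fun k => tb (3 * i + k))]
    exact convex_sum hq (three_card c hc) (tbOK_elim htb i 0 hi432 (by norm_num))
      (tbOK_elim htb i 1 hi432 (by norm_num)) (tbOK_elim htb i 2 hi432 (by norm_num))
      (hs 0 (by norm_num)) (hs 1 (by norm_num)) (hs 2 (by norm_num))
  calc O * Fintype.card V ^ 5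
      = ∑ _x : V, ∑ _y : V, ∑ _u : V, ∑ _w : V, O * Fintype.card V := by
        simp only [sum_const, card_univ, smul_eq_mul]; ring
    _ ≤ _ := sum_le_sum fun x _ => sum_le_sum fun y _ => sum_le_sum fun u _ =>
        sum_le_sum fun w _ => h x y u w

variable {val : ℕ → ℕ → ℕ → ℕ} {rows : ℕ → List (List ℤ)} {OFF : ℕ}

/-- The main inequality. -/
theorem mainC (hG : GoodA val rows OFF) (ex : ℕ → ℕ → ℕ → ℕ) (g W K0 : ℕ)
    (ex1 : ∀ a b d, a < 3 → b < 3 → d < 3 → ex a b d = ex b a d)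
    (ex2 : ∀ a b d, a < 3 → b < 3 → d < 3 → ex a b d = ex a d b)
    (tb : ℕ → ℕ) (p q O : ℕ) (hq : 0 < q) (htb : tbOK tb p q O = true)
    (hmv : symOK (mqC tb) = true)
    (hchk : ∀ C0 C1 C2 C3 C4 : ℕ, C0 ≤ C1 → C1 ≤ C2 → C2 ≤ C3 → C3 ≤ C4 → C4 < 3 →
      chkA ex g val (mqC tb) W (K0 + 75 * OFF + 30 * O) C0 C1 C2 C3 C4 = true)
    (c : V → ℕ) (hc : ∀ x, c x < 3)
    (hs : ∀ k < 3, p * Fintype.card V ≤ (3 * p + q) * (univ.filter fun z => c z = k).card)
    (e : V → V → V → ℕ) (e1 : ∀ x y z, e x y z ≤ 1)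
    (s1 : ∀ x y z, e x y z = e y x z) (s2 : ∀ x y z, e x y z = e x z y)
    (hK : ∀ x y z w, e x y z = 0 ∨ e x y w = 0 ∨ e x z w = 0 ∨ e y z w = 0) :
    90 * W * (Fintype.card V ^ 2 * ∑ a, ∑ b, ∑ d, e a b d) ≤
      K0 * Fintype.card V ^ 5 +
        10 * (g * (Fintype.card V ^ 2 * ∑ a, ∑ b, ∑ d, bd ex c e a b d)) := by
  have hsum : ∑ x : Fin 5 → V, (S60 (v3A val c e) (x 0) (x 1) (x 2) (x 3) (x 4) +
      S15 (v1A val c e) (x 0) (x 1) (x 2) (x 3) (x 4) + 9 * W * S10 e (x 0) (x 1) (x 2) (x 3) (x 4) +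
      S30 (mg (mqC tb) c e) (x 0) (x 1) (x 2) (x 3) (x 4)) ≤
      ∑ x : Fin 5 → V, ((K0 + 75 * OFF + 30 * O) +
        g * S10 (bd ex c e) (x 0) (x 1) (x 2) (x 3) (x 4)) :=
    sum_le_sum fun x _ => keyA hG ex g W _ ex1 ex2 _ hmv hchk c hc e e1 s1 s2 hK _ _ _ _ _
  rw [sum_add_distrib, sum_add_distrib, sum_add_distrib, sum_add_distrib, ← mul_sum, ← mul_sum,
    sum_S60, sum_S15, sum_S10, sum_S10, sum_S30, e_sum, e_sum, sum_const, card_univ, smul_eq_mul,
    Fintype.card_fun, Fintype.card_fin] at hsum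
  have h3 := v3A_sum hG c hc e e1
  have h1 := v1A_sum hG c hc e e1
  have hm := mgC_sum tb p q O hq htb c hc hs e e1
  nlinarith [hsum, h3, h1, hm]

end Pool.Agent.R81.TC
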