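import Pool.Agent.R81.TC.OneA0
import Pool.Agent.R81.TC.OneA1

set_option autoImplicit false

namespace Pool.Agent.R81.TC.One

open Pool.Agent.Y439.Col

theorem psd_all (k : ℕ) (hk : k < 19) : psdPart rows (3 * k) = true := by
  interval_cases k
  exacts [psd0, psd1, psd2, psd3, psd4, psd5, psd6, psd7, psd8, psd9, psd10, psd11, psd12, psd13, psd14, psd15, psd16, psd17, psd18]

theorem tab_all (k : ℕ) (hk : k < 19) :
    tabPart val rows ((268435456 : ℕ) : ℤ) (3 * k) = true := by
  interval_cases k
  exacts [tab0, tab1, tab2, tab3, tab4, tab5, tab6, tab7, tab8, tab9, tab10, tab11, tab12, tab13, tab14, tab15, tab16, tab17, tab18]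

theorem good : GoodA val rows 268435456 := goodA_parts tab_all psd_all

theorem mt_ok : (allb 1296 fun i => Nat.ble (mt i) 15441752) = true := by decide +kernel

theorem sym_ok : symOK (mqA mt 268435456 5 1 1 3) = true := by decide +kernel

end Pool.Agent.R81.TC.One
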