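import Pool.Agent.R81.TC.Ded
import Pool.Agent.R81.TC.J2Chk
import Pool.Agent.R81.TC.J2bChk
import Pool.Agent.R81.TC.J3Chk

set_option autoImplicit false

/-!
3-graphs and a set of vertices: the number of edges is at most `1499/16200 n^3` plus a constant times
the number of edges meeting the set in exactly `j` vertices.
-/

namespace Pool.Agent.R81.TC
open Finset Pool.Agent.Y439.Col

variable {n : ℕ}

/-- The edges of `H` meeting `A` in exactly `j` vertices. -/
def meeting (H : Finset (Finset (Fin n))) (A : Finset (Fin n)) (j : ℕ) : Finset (Finset (Fin n)) :=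
  H.filter fun e => (e ∩ A).card = j

/-- The class of a vertex: 0 for the vertices of `A`, 1 for the others. -/
def cls (A : Finset (Fin n)) (x : Fin n) : ℕ := if x ∈ A then 0 else 1

theorem cls_lt (A : Finset (Fin n)) (x : Fin n) : cls A x < 2 := by
  unfold cls
  split_ifs <;> norm_num

theorem cls_zero (A : Finset (Fin n)) (x : Fin n) : cls A x = 0 ↔ x ∈ A := by
  unfold cls
  split_ifs with h <;> simp [h]

theorem ex6 (x y z : ℕ) (hx : x < 2) (hy : y < 2) (hz : z < 2) : exK 6 6 x y z ≤ 1 ∧
    (exK 6 6 x y z = 1 → (if x = 0 then 1 else 0) + ((if y = 0 then 1 else 0) +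
      (if z = 0 then 1 else 0)) = 2) := by
  interval_cases x <;> interval_cases y <;> interval_cases z <;> decide

theorem ex3 (x y z : ℕ) (hx : x < 2) (hy : y < 2) (hz : z < 2) : exK 3 3 x y z ≤ 1 ∧
    (exK 3 3 x y z = 1 → (if x = 0 then 1 else 0) + ((if y = 0 then 1 else 0) +
      (if z = 0 then 1 else 0)) = 3) := by
  interval_cases x <;> interval_cases y <;> interval_cases z <;> decide

theorem card_inter_triple {x y z : Fin n} (hxy : x ≠ y) (hxz : x ≠ z) (hyz : y ≠ z)
    (A : Finset (Fin n)) : (({x, y, z} : Finset (Fin n)) ∩ A).card =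
      (if cls A x = 0 then 1 else 0) + ((if cls A y = 0 then 1 else 0) +
        (if cls A z = 0 then 1 else 0)) := by
  rw [← filter_mem_eq_inter, card_filter, sum_insert (by simp [hxy, hxz]),
    sum_insert (by simp [hyz]), sum_singleton]
  simp only [cls_zero]

theorem bd_two_le (H : Finset (Finset (Fin n))) (hH : ∀ e ∈ H, e.card = 3) (A : Finset (Fin n))
    (k j : ℕ) (hex : ∀ x y z : ℕ, x < 2 → y < 2 → z < 2 → exK k k x y z ≤ 1 ∧
      (exK k k x y z = 1 → (if x = 0 then 1 else 0) + ((if y = 0 then 1 else 0) +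
        (if z = 0 then 1 else 0)) = j)) :
    ∑ a, ∑ b, ∑ d, bd (exK k k) (cls A) (tri H) a b d ≤ 6 * (meeting H A j).card := by
  refine le_trans (sum_le_sum fun a _ => sum_le_sum fun b _ => sum_le_sum fun d _ => ?_)
    (tri_sum_le (meeting H A j) ?_)
  · unfold bd
    obtain ⟨h1, h2⟩ := hex (cls A a) (cls A b) (cls A d) (cls_lt A a) (cls_lt A b) (cls_lt A d)
    rcases Nat.le_one_iff_eq_zero_or_eq_one.1 h1 with h0 | h0
    · rw [h0, Nat.zero_mul]; exact Nat.zero_le _
    · rw [h0, Nat.one_mul]
      rcases Nat.le_one_iff_eq_zero_or_eq_one.1 (tri_le H a b d) with h3 | h3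
      · rw [h3]; exact Nat.zero_le _
      · have hm : ({a, b, d} : Finset (Fin n)) ∈ H := tri_eq_one.1 h3
        obtain ⟨hab, had, hbd⟩ := distinct_of_mem hH hm
        have hm' : ({a, b, d} : Finset (Fin n)) ∈ meeting H A j := by
          rw [meeting, mem_filter, card_inter_triple hab had hbd]
          exact ⟨hm, h2 h0⟩
        rw [h3, tri_eq_one.2 hm']
  · intro e he
    exact hH e (mem_filter.1 he).1

theorem size_zero (A : Finset (Fin n)) : (univ.filter fun w => cls A w = 0).card = A.card := by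
  congr 1
  ext x
  simp [cls_zero]

theorem size_one (A : Finset (Fin n)) :
    (univ.filter fun w => ¬ cls A w = 0).card = n - A.card := by
  have h := card_filter_add_card_filter_not (s := (univ : Finset (Fin n))) (fun w => cls A w = 0)
  rw [size_zero, card_univ, Fintype.card_fin] at h
  omega

theorem edgesB {H : Finset (Finset (Fin n))} (h3 : ∀ e ∈ H, e.card = 3) (W g C K0 X Y : ℕ)
    (hW : 0 < W) (hK0 : 30 * K0 = 1499 * W) (hB : 6 * g ≤ C * W) (hX : X ≤ 6 * Y)
    (h : 90 * W * (Fintype.card (Fin n) ^ 2 * ∑ a, ∑ b, ∑ d, tri H a b d) ≤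
      K0 * Fintype.card (Fin n) ^ 5 + 10 * (g * (Fintype.card (Fin n) ^ 2 * X))) :
    16200 * H.card ≤ 1499 * n ^ 3 + 300 * C * Y := by
  rw [Fintype.card_fin] at h
  rcases Nat.eq_zero_or_pos n with h0 | h0
  · have : H.card = 0 := by
      rw [card_eq_zero, eq_empty_iff_forall_notMem]
      intro e he
      have h1 := h3 e he
      have h2 := card_le_univ e
      rw [Fintype.card_fin] at h2
      omega
    rw [this]
    exact Nat.zero_le _
  · have h6 := six_card_le h3
    set S := ∑ a, ∑ b, ∑ d, tri H a b d with hS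
    have hn2 : 0 < n ^ 2 := by positivity
    have h7 : n ^ 2 * (90 * W * S) ≤ n ^ 2 * (K0 * n ^ 3 + 10 * (g * X)) := by
      calc n ^ 2 * (90 * W * S) = 90 * W * (n ^ 2 * S) := by ring
        _ ≤ _ := h
        _ = _ := by ring
    have h8 := Nat.le_of_mul_le_mul_left h7 hn2
    have h9 : W * (16200 * H.card) ≤ W * (1499 * n ^ 3 + 300 * C * Y) := by
      calc W * (16200 * H.card) = 30 * (90 * W * (6 * H.card)) := by ring
        _ ≤ 30 * (90 * W * S) := by gcongr
        _ ≤ 30 * (K0 * n ^ 3 + 10 * (g * X)) := by gcongr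
        _ ≤ 30 * (K0 * n ^ 3 + 10 * (g * (6 * Y))) := by gcongr
        _ = 30 * K0 * n ^ 3 + 300 * Y * (6 * g) := by ring
        _ = 1499 * W * n ^ 3 + 300 * Y * (6 * g) := by rw [hK0]
        _ ≤ 1499 * W * n ^ 3 + 300 * Y * (C * W) := by gcongr
        _ = _ := by ring
    exact Nat.le_of_mul_le_mul_left h9 hW

theorem size_ineq {a b p q r s t u : ℕ} (h1 : q * b ≤ p * a) (h2 : r * a ≤ s * b)
    (ht : t = r * p) (hu : u = s * q) :
    t * a ^ 2 + u * b ^ 2 ≤ (p * s + q * r) * (a * b) := by
  subst ht hu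
  obtain ⟨x, hx⟩ := Nat.exists_eq_add_of_le h1
  obtain ⟨y, hy⟩ := Nat.exists_eq_add_of_le h2
  have h : 0 ≤ x * y := Nat.zero_le _
  zify at *
  have e1 : (x : ℤ) = p * a - q * b := by linarith
  have e2 : (y : ℤ) = s * b - r * a := by linarith
  rw [e1, e2] at h
  nlinarith [h]

theorem meet_two {H : Finset (Finset (Fin n))} (h3 : ∀ e ∈ H, e.card = 3)
    (hK : ∀ S : Finset (Fin n), S.card = 4 → ∃ T ⊆ S, T.card = 3 ∧ T ∉ H) (A : Finset (Fin n))
    (h1 : 14 * n ≤ 100 * A.card) (h2 : 1000 * A.card ≤ 988 * n) :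
    16200 * H.card ≤ 1499 * n ^ 3 + 38700 * (meeting H A 2).card := by
  have hA : A.card ≤ n := by
    have := card_le_univ A
    rwa [Fintype.card_fin] at this
  have hb := bd_two_le H h3 A 6 2 ex6
  rcases Nat.le_total (4 * A.card) (3 * n) with hc | hc
  · have h := J2.final (cls A) (cls_lt A) (by
      rw [size_zero, size_one]
      have := size_ineq (a := A.card) (b := n - A.card) (p := 43) (q := 7) (r := 1) (s := 3)
        (t := 43) (u := 21) (by omega) (by omega) (by norm_num) (by norm_num)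
      linarith) (tri H) (tri_le H) (tri_s1 H) (tri_s2 H) (tri_k4 h3 hK)
    exact edgesB h3 3000000 64059748 129 149900000 _ _ (by norm_num) (by norm_num) (by norm_num)
      hb h
  · have h := J2b.final (cls A) (cls_lt A) (by
      rw [size_zero, size_one]
      have := size_ineq (a := A.card) (b := n - A.card) (p := 1) (q := 3) (r := 3) (s := 247)
        (t := 3) (u := 741) (by omega) (by omega) (by norm_num) (by norm_num)
      linarith) (tri H) (tri_le H) (tri_s1 H) (tri_s2 H) (tri_k4 h3 hK)
    exact edgesB h3 150000 3048591 129 7495000 _ _ (by norm_num) (by norm_num) (by norm_num)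
      hb h

theorem meet_three {H : Finset (Finset (Fin n))} (h3 : ∀ e ∈ H, e.card = 3)
    (hK : ∀ S : Finset (Fin n), S.card = 4 → ∃ T ⊆ S, T.card = 3 ∧ T ∉ H) (A : Finset (Fin n))
    (h1 : 515 * n ≤ 1000 * A.card) :
    16200 * H.card ≤ 1499 * n ^ 3 + 66600 * (meeting H A 3).card := by
  have hA : A.card ≤ n := by
    have := card_le_univ A
    rwa [Fintype.card_fin] at this
  have hb := bd_two_le H h3 A 3 3 ex3
  have h := J3.final (cls A) (cls_lt A) (by
    rw [size_zero, size_one]
    have h4 : 103 * (n - A.card) ≤ 97 * A.card := by omega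
    have h5 := Nat.mul_le_mul_left (2 * (n - A.card)) h4
    nlinarith [h5]) (tri H) (tri_le H) (tri_s1 H) (tri_s2 H) (tri_k4 h3 hK)
  exact edgesB h3 1500000 55379372 222 74950000 _ _ (by norm_num) (by norm_num) (by norm_num)
    hb h

theorem meeting_compl (H : Finset (Finset (Fin n))) (hH : ∀ e ∈ H, e.card = 3)
    (A : Finset (Fin n)) {i j : ℕ} (hij : i + j = 3) : meeting H Aᶜ i = meeting H A j := by
  unfold meeting
  refine filter_congr fun e he => ?_
  have h1 := hH e he
  have h2 : (e ∩ Aᶜ).card + (e ∩ A).card = e.card := by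
    rw [← sdiff_eq_inter_compl, card_sdiff_add_card_inter]
  omega

end Pool.Agent.R81.TC
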