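import Pool.Agent.R81.TC.MainA

set_option autoImplicit false

namespace Pool.Agent.R81.TC
open Pool.Agent.Y439.Col

/-- All entries of the table agree with the matrices. -/
def tabOKA (val : ℕ → ℕ → ℕ → ℕ) (rows : ℕ → List (List ℤ)) (OFF : ℤ) : Bool :=
  allb 57 fun t => allb 24 fun f => allb 24 fun g =>
    decide (Int.ofNat (val t f g) = ent (rows t) f g + OFF)

def psdOKA (rows : ℕ → List (List ℤ)) : Bool := allb 57 fun t => psd 24 1 (rows t)

theorem goodA_of {val : ℕ → ℕ → ℕ → ℕ} {rows : ℕ → List (List ℤ)} {OFF : ℕ}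
    (h1 : tabOKA val rows (OFF : ℤ) = true) (h2 : psdOKA rows = true) : GoodA val rows OFF where
  hval := fun t ht f hf g hg => of_decide_eq_true (allb_elim (allb_elim (allb_elim h1 t ht) f hf) g hg)
  hpsd := fun t ht => allb_elim h2 t ht

/-- The multiset of three colours as a number: the sum of the powers `4 ^ a`. -/
def key (a b d : ℕ) : ℕ := Nat.add (Nat.pow 4 a) (Nat.add (Nat.pow 4 b) (Nat.pow 4 d))

/-- 1 if the multiset of the colours has one of the numbers `k`, `l`, else 0. -/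
def exK (k l a b d : ℕ) : ℕ :=
  match (Nat.beq (key a b d) k || Nat.beq (key a b d) l) with
  | true => 1
  | false => 0

theorem key_sw1 (a b d : ℕ) : key a b d = key b a d := by
  show 4 ^ a + (4 ^ b + 4 ^ d) = 4 ^ b + (4 ^ a + 4 ^ d)
  ring

theorem key_sw2 (a b d : ℕ) : key a b d = key a d b := by
  show 4 ^ a + (4 ^ b + 4 ^ d) = 4 ^ a + (4 ^ d + 4 ^ b)
  ring

theorem exK_sw1 (k l a b d : ℕ) : exK k l a b d = exK k l b a d := by
  unfold exK
  rw [key_sw1]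

theorem exK_sw2 (k l a b d : ℕ) : exK k l a b d = exK k l a d b := by
  unfold exK
  rw [key_sw2]

/-- The check for all sorted colourings with given first three colours. -/
def chkAt (ex : ℕ → ℕ → ℕ → ℕ) (g : ℕ) (val : ℕ → ℕ → ℕ → ℕ)
    (mv : ℕ → ℕ → ℕ → ℕ → ℕ → ℕ → ℕ → ℕ → ℕ → ℕ → ℕ) (W K C0 C1 C2 : ℕ) : Bool :=
  allb 3 fun C3 => !(Nat.ble C2 C3) ||
    (allb 3 fun C4 => !(Nat.ble C3 C4) || chkA ex g val mv W K C0 C1 C2 C3 C4)

theorem chkAt_elim {ex : ℕ → ℕ → ℕ → ℕ} {g : ℕ} {val : ℕ → ℕ → ℕ → ℕ}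
    {mv : ℕ → ℕ → ℕ → ℕ → ℕ → ℕ → ℕ → ℕ → ℕ → ℕ → ℕ} {W K C0 C1 C2 C3 C4 : ℕ}
    (h : chkAt ex g val mv W K C0 C1 C2 = true) (h23 : C2 ≤ C3) (h34 : C3 ≤ C4) (h4 : C4 < 3) :
    chkA ex g val mv W K C0 C1 C2 C3 C4 = true := by
  have g2 := or_elim_le (allb_elim h C3 (by omega)) h23
  exact or_elim_le (allb_elim g2 C4 (by omega)) h34

end Pool.Agent.R81.TC
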