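import Pool.Agent.R81.TC.Tool

set_option autoImplicit false

/-!
The checks of the matrices, cut into 19 parts with three types each (so that the kernel needs little
memory for each of them).
-/

namespace Pool.Agent.R81.TC
open Pool.Agent.Y439.Col

def tabPart (val : ℕ → ℕ → ℕ → ℕ) (rows : ℕ → List (List ℤ)) (OFF : ℤ) (a : ℕ) : Bool :=
  allb 3 fun i => allb 24 fun f => allb 24 fun g =>
    decide (Int.ofNat (val (Nat.add a i) f g) = ent (rows (Nat.add a i)) f g + OFF)

def psdPart (rows : ℕ → List (List ℤ)) (a : ℕ) : Bool :=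
  allb 3 fun i => psd 24 1 (rows (Nat.add a i))

theorem goodA_parts {val : ℕ → ℕ → ℕ → ℕ} {rows : ℕ → List (List ℤ)} {OFF : ℕ}
    (h1 : ∀ k < 19, tabPart val rows (OFF : ℤ) (3 * k) = true)
    (h2 : ∀ k < 19, psdPart rows (3 * k) = true) : GoodA val rows OFF where
  hval := fun t ht f hf g hg => by
    have h := of_decide_eq_true (allb_elim (allb_elim (allb_elim (h1 (t / 3) (by omega)) (t % 3)
      (by omega)) f hf) g hg)
    have e : Nat.add (3 * (t / 3)) (t % 3) = t := Nat.div_add_mod t 3
    rw [e] at h
    exact h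
  hpsd := fun t ht => by
    have h := allb_elim (h2 (t / 3) (by omega)) (t % 3) (by omega)
    have e : Nat.add (3 * (t / 3)) (t % 3) = t := Nat.div_add_mod t 3
    rw [e] at h
    exact h

end Pool.Agent.R81.TC
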